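import Pool.Agent.H472R3.NF.Core1

/-! As `Core1`, on the half plane `Re s > θ`. -/

set_option autoImplicit false

open Complex Filter Topology Set

namespace Pool.Agent.H472R3.NF

open Pool.Agent.H438R3.BSD hiding isOpen_re_gt

/-- the relation between `F` and the series spreads along the real axis -/
theorem spreadT (θ : ℝ) (k : ℕ) (a : ℕ → ℂ) (ε : ℂ) (F W : ℂ → ℂ) (hF : ∀ σ : ℝ, θ < σ → MeromorphicAt F (σ : ℂ))
    (hW : DifferentiableOn ℂ W {s | θ < s.re})
    (hrel : ∀ s : ℂ, 3 / 2 < s.re → F s = exp (W s + ε * (s - 1) ^ k * LSeries a s))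
    (t : ℝ) (ht : θ ≤ t) (ht2 : t ≤ 3 / 2) (habs : LSeries.abscissaOfAbsConv a ≤ (t : EReal)) :
    ∀ σ : ℝ, t < σ → ∀ᶠ s in 𝓝[≠] (σ : ℂ), F s = exp (W s + ε * (s - 1) ^ k * LSeries a s) := by
  have hL : DifferentiableOn ℂ (LSeries a) {s : ℂ | t < s.re} := by
    intro s hs
    refine (LSeries_analyticOnNhd a s ?_).differentiableAt.differentiableWithinAt
    exact lt_of_le_of_lt habs (by exact_mod_cast hs)
  have hW' : DifferentiableOn ℂ W {s : ℂ | t < s.re} :=
    hW.mono (fun s (hs : t < s.re) => lt_of_le_of_lt ht hs)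
  have hR : DifferentiableOn ℂ (fun s => exp (W s + ε * (s - 1) ^ k * LSeries a s)) {s : ℂ | t < s.re} := by
    apply DifferentiableOn.cexp
    apply hW'.add
    apply DifferentiableOn.mul _ hL
    fun_prop
  have h2 := hR.analyticOnNhd (isOpen_re_gt t)
  set U : Set ℂ := (fun x : ℝ => (x : ℂ)) '' Ioi t with hU
  have hUc : IsPreconnected U := isPreconnected_Ioi.image _ Complex.continuous_ofReal.continuousOn
  have h1 : MeromorphicOn (F - fun s => exp (W s + ε * (s - 1) ^ k * LSeries a s)) U := by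
    rintro _ ⟨x, hx, rfl⟩
    exact (hF x (lt_of_le_of_lt ht hx)).sub (h2 x (by simpa using hx)).meromorphicAt
  intro σ hσ
  have h4 : meromorphicOrderAt (F - fun s => exp (W s + ε * (s - 1) ^ k * LSeries a s)) (σ : ℂ) = ⊤ := by
    by_contra hcon
    have h5 := MeromorphicOn.meromorphicOrderAt_ne_top_of_isPreconnected h1 hUc ⟨σ, hσ, rfl⟩
      (y := ((2 : ℝ) : ℂ)) ⟨2, by show t < 2; linarith, rfl⟩ hcon
    apply h5
    rw [meromorphicOrderAt_eq_top_iff]
    apply eventually_nhdsWithin_of_eventually_nhds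
    have : {s : ℂ | 3 / 2 < s.re} ∈ 𝓝 ((2 : ℝ) : ℂ) :=
      (isOpen_re_gt (3 / 2)).mem_nhds (by show (3:ℝ) / 2 < ((2 : ℝ) : ℂ).re; simp only [ofReal_re]; norm_num)
    filter_upwards [this] with s hs
    rw [Pi.sub_apply, hrel s hs, sub_self]
  rw [meromorphicOrderAt_eq_top_iff] at h4
  filter_upwards [h4] with s hs
  rw [Pi.sub_apply] at hs
  exact sub_eq_zero.1 hs

theorem coreT (θ : ℝ) (hθ : 1 ≤ θ) (hθ2 : θ ≤ 3 / 2) (k : ℕ) (G : ℕ → ℝ) (hG : ∀ n, 0 ≤ G n) (ε : ℝ) (hε : ε = 1 ∨ ε = -1) (F W : ℂ → ℂ)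
    (hF : ∀ σ : ℝ, θ < σ → MeromorphicAt F (σ : ℂ)) (hW : DifferentiableOn ℂ W {s | θ < s.re})
    (hsum : ∀ s : ℂ, 3 / 2 < s.re → LSeriesSummable (fun n => (G n : ℂ)) s)
    (hrel : ∀ s : ℂ, 3 / 2 < s.re →
      F s = exp (W s + ε * (s - 1) ^ k * LSeries (fun n => (G n : ℂ)) s))
    (hreal1 : ε = 1 → ∀ σ : ℝ, θ < σ → 0 ≤ meromorphicOrderAt F σ)
    (hreal2 : ε = -1 → ∀ σ : ℝ, θ < σ → meromorphicOrderAt F σ ≤ 0) :
    (∀ s : ℂ, θ < s.re → LSeriesSummable (fun n => (G n : ℂ)) s) ∧
    ∀ σ : ℝ, θ < σ → ∀ᶠ s in 𝓝[≠] (σ : ℂ),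
      F s = exp (W s + ε * (s - 1) ^ k * LSeries (fun n => (G n : ℂ)) s) := by
  set a : ℕ → ℂ := fun n => (G n : ℂ) with ha
  have hup : LSeries.abscissaOfAbsConv a ≤ ((3 / 2 : ℝ) : EReal) :=
    LSeries.abscissaOfAbsConv_le_of_forall_lt_LSeriesSummable fun y hy =>
      hsum y (by simpa using hy)
  have hε2 : (ε : ℂ) * ε = 1 := by
    rcases hε with h | h <;> rw [h] <;> push_cast <;> ring
  -- the abscissa is at most 1
  have hone : LSeries.abscissaOfAbsConv a ≤ ((θ : ℝ) : EReal) := by
    by_contra hcon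
    push Not at hcon
    obtain ⟨a0, ha0⟩ : ∃ a0 : ℝ, LSeries.abscissaOfAbsConv a = (a0 : EReal) := by
      induction h : LSeries.abscissaOfAbsConv a using EReal.rec with
      | bot => rw [h] at hcon; exact absurd hcon (by simp)
      | coe x => exact ⟨x, rfl⟩
      | top => rw [h] at hup; exact absurd hup (by simp)
    rw [ha0] at hcon hup
    have h1a : θ < a0 := by exact_mod_cast hcon
    have h1b : 1 < a0 := by linarith
    have ha32 : a0 ≤ 3 / 2 := by exact_mod_cast hup
    have hR := spreadT θ k a ε F W hF hW hrel a0 h1a.le ha32 ha0.le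
    have hWc : ContinuousAt W (a0 : ℂ) :=
      (hW.differentiableAt ((isOpen_re_gt θ).mem_nhds (by simpa using h1a))).continuousAt
    set R : ℂ → ℂ := fun s => exp (W s + ε * (s - 1) ^ k * LSeries a s) with hRdef
    have hRan : ∀ σ : ℝ, a0 < σ → AnalyticAt ℂ R (σ : ℂ) := by
      intro σ hσ
      have e1 : AnalyticAt ℂ W (σ : ℂ) := hW.analyticOnNhd (isOpen_re_gt θ) _
        (by show θ < ((σ : ℂ)).re; simp only [ofReal_re]; linarith)
      have e2 : AnalyticAt ℂ (LSeries a) (σ : ℂ) := LSeries_analyticOnNhd a _ (by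
        show LSeries.abscissaOfAbsConv a < (((σ : ℂ)).re : EReal)
        rw [ha0]
        simp only [ofReal_re]
        exact_mod_cast hσ)
      exact (e1.add ((analyticAt_const.mul ((analyticAt_id.sub analyticAt_const).pow k)).mul e2)).cexp
    -- `F σ = R σ` for real `σ` slightly larger than `a0`
    have hFR : ∀ᶠ σ : ℝ in 𝓝[>] a0, F σ = R σ := by
      have h5 : Tendsto (fun x : ℝ => (x : ℂ)) (𝓝[>] a0) (𝓝[≠] (a0 : ℂ)) := tendsto_ofReal_nhdsGT a0
      filter_upwards [h5.eventually (hF a0 h1a).eventually_analyticAt, self_mem_nhdsWithin] with σ h6 h7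
      have h8 := (h6.frequently_eq_iff_eventually_eq (hRan σ h7)).1 (hR σ h7).frequently
      exact h8.self_of_nhds
    have hnorm : ∀ᶠ σ : ℝ in 𝓝[>] a0, (ε = 1 → Real.exp (W σ).re ≤ ‖F σ‖) ∧
        (ε = -1 → ‖F σ‖ ≤ Real.exp (W σ).re) := by
      filter_upwards [hFR, self_mem_nhdsWithin] with σ h6 h7
      have hσ' : a0 < σ := h7
      have h4 := re_LSeries_nonneg G hG σ
      have h5 : ((ε : ℂ) * ((σ : ℂ) - 1) ^ k * LSeries a σ).re = ε * ((σ - 1) ^ k * (LSeries a σ).re) := by
        have : (ε : ℂ) * ((σ : ℂ) - 1) ^ k = ((ε * (σ - 1) ^ k : ℝ) : ℂ) := by push_cast; ring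
        rw [this, Complex.re_ofReal_mul]
        ring
      have h8 : 0 ≤ (σ - 1) ^ k * (LSeries a σ).re := mul_nonneg (pow_nonneg (by linarith) k) h4
      have h9 : ‖F σ‖ = Real.exp ((W σ).re + ε * ((σ - 1) ^ k * (LSeries a σ).re)) := by
        rw [h6, hRdef]
        simp only
        rw [Complex.norm_exp, add_re, h5]
      rw [h9]
      constructor
      · intro h
        apply Real.exp_le_exp.2
        rw [h]; linarith
      · intro h
        apply Real.exp_le_exp.2
        rw [h]; linarith
    have hWt : Tendsto (fun σ : ℝ => Real.exp (W σ).re) (𝓝[>] a0) (𝓝 (Real.exp (W a0).re)) := by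
      have hc : ContinuousAt (fun σ : ℝ => Real.exp (W σ).re) a0 := by
        apply Real.continuous_exp.continuousAt.comp
        apply Complex.continuous_re.continuousAt.comp
        exact ContinuousAt.comp (f := fun σ : ℝ => (σ : ℂ)) hWc Complex.continuous_ofReal.continuousAt
      exact hc.tendsto.mono_left nhdsWithin_le_nhds
    have hpath : Tendsto (fun x : ℝ => (x : ℂ)) (𝓝[>] a0) (𝓝[≠] (a0 : ℂ)) := tendsto_ofReal_nhdsGT a0
    have hord : meromorphicOrderAt F (a0 : ℂ) = 0 := by
      rcases hε with h | h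
      · refine le_antisymm ?_ (hreal1 h a0 h1a)
        by_contra hcon2
        push Not at hcon2
        have t0 := (tendsto_zero_of_meromorphicOrderAt_pos hcon2).comp hpath
        have t1 := t0.norm
        rw [norm_zero] at t1
        have h3 : Real.exp (W a0).re ≤ 0 := by
          refine le_of_tendsto_of_tendsto hWt t1 ?_
          filter_upwards [hnorm] with σ hσ
          exact hσ.1 h
        exact absurd h3 (not_le.2 (Real.exp_pos _))
      · refine le_antisymm (hreal2 h a0 h1a) ?_
        by_contra hcon2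
        push Not at hcon2
        have t0 := (tendsto_cobounded_of_meromorphicOrderAt_neg hcon2).comp hpath
        rw [← tendsto_norm_atTop_iff_cobounded] at t0
        have h3 := t0.eventually_gt_atTop (Real.exp (W a0).re + 1)
        have h4 := hWt.eventually_lt_const (lt_add_one (Real.exp (W a0).re))
        obtain ⟨σ, h5, h6, h7⟩ := (h3.and (h4.and hnorm)).exists
        have h8 := h7.2 h
        simp only [Function.comp_apply] at h5
        linarith
    obtain ⟨g, hg, hg0, hFg⟩ := (meromorphicOrderAt_eq_int_iff (n := 0) (hF a0 h1a)).1 hord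
    have hFg' : ∀ᶠ z in 𝓝[≠] (a0 : ℂ), F z = g z := by
      filter_upwards [hFg] with z hz
      rw [hz, zpow_zero, one_smul]
    -- a logarithm near `a0`
    have hq : ContinuousAt (fun s => g s / g a0) (a0 : ℂ) := (hg.continuousAt).div_const _
    obtain ⟨r1, hr1, hball⟩ := Metric.continuousAt_iff.1 hq 1 one_pos
    obtain ⟨r2, hr2, hball2⟩ := Metric.eventually_nhds_iff_ball.1 (hg.eventually_analyticAt.and
      (eventually_nhdsWithin_iff.1 hFg'))
    set r := min (min r1 r2) (a0 - θ) with hr
    have hr0 : 0 < r := lt_min (lt_min hr1 hr2) (by linarith)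
    have hslit : ∀ s ∈ Metric.ball (a0 : ℂ) r, g s / g a0 ∈ slitPlane := by
      intro s hs
      have h2 := hball (lt_of_lt_of_le (Metric.mem_ball.1 hs) ((min_le_left _ _).trans (min_le_left _ _)))
      rw [div_self hg0, dist_eq_norm] at h2
      have h3 := Complex.mem_slitPlane_of_norm_lt_one h2
      simpa using h3
    have hre : ∀ s ∈ Metric.ball (a0 : ℂ) r, θ < s.re := by
      intro s hs
      have h2 : ‖s - a0‖ < a0 - θ := by
        have := Metric.mem_ball.1 hs
        rw [dist_eq_norm] at this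
        exact lt_of_lt_of_le this (min_le_right _ _)
      have h3 := (abs_lt.1 ((Complex.abs_re_le_norm (s - a0)).trans_lt h2)).1
      simp only [sub_re, ofReal_re] at h3
      linarith
    set Lg : ℂ → ℂ := fun s => Complex.log (g s / g a0) + Complex.log (g a0) with hLg
    have hLgd : DifferentiableOn ℂ Lg (Metric.ball (a0 : ℂ) r) := by
      intro s hs
      have h2 : DifferentiableAt ℂ (fun s => g s / g a0) s := (hball2 s (Metric.ball_subset_ball
        ((min_le_left _ _).trans (min_le_right _ _)) hs)).1.differentiableAt.div_const _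
      exact ((h2.clog (hslit s hs)).add_const _).differentiableWithinAt
    have hexpLg : ∀ s ∈ Metric.ball (a0 : ℂ) r, exp (Lg s) = g s := by
      intro s hs
      rw [hLg]
      simp only
      have h2 := Complex.slitPlane_ne_zero (hslit s hs)
      rw [Complex.exp_add, Complex.exp_log h2, Complex.exp_log hg0, div_mul_cancel₀ _ hg0]
    set c : ℝ := a0 + r / 4 with hc
    have hsub : Metric.ball (c : ℂ) (r / 2) ⊆ Metric.ball (a0 : ℂ) r := by
      apply Metric.ball_subset_ball'
      rw [dist_eq_norm]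
      have : (c : ℂ) - a0 = ((r / 4 : ℝ) : ℂ) := by rw [hc]; push_cast; ring
      rw [this, Complex.norm_real, Real.norm_eq_abs, abs_of_pos (by positivity)]
      linarith
    have hLc : ContinuousAt (LSeries a) (c : ℂ) :=
      (LSeries_analyticOnNhd a (c : ℂ) (by
        show LSeries.abscissaOfAbsConv a < (((c : ℂ)).re : EReal)
        rw [ha0]
        simp only [ofReal_re]
        exact_mod_cast (by rw [hc]; linarith : a0 < c))).continuousAt
    have hcmem : (c : ℂ) ∈ Metric.ball (a0 : ℂ) r := hsub (Metric.mem_ball_self (by positivity))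
    set φ : ℂ → ℂ := fun s => Lg s - W s - ε * (s - 1) ^ k * LSeries a s with hφ
    have hφc : ContinuousAt φ (c : ℂ) := by
      apply ContinuousAt.sub
      · apply ContinuousAt.sub
        · exact (hLgd.differentiableAt (Metric.isOpen_ball.mem_nhds hcmem)).continuousAt
        · exact (hW.differentiableAt ((isOpen_re_gt θ).mem_nhds (hre _ hcmem))).continuousAt
      · apply ContinuousAt.mul _ hLc
        fun_prop
    have hev : ∀ᶠ s in 𝓝 (c : ℂ), exp (φ s) = 1 := by
      have hca : a0 < c := by rw [hc]; linarith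
      have hcmem2 := Metric.ball_subset_ball ((min_le_left _ _).trans (min_le_right _ _)) hcmem
      have hgR : ∀ᶠ s in 𝓝 (c : ℂ), g s = R s := by
        apply ((hball2 c hcmem2).1.frequently_eq_iff_eventually_eq (hRan c hca)).1
        apply Filter.Eventually.frequently
        have h10 : ∀ᶠ s in 𝓝[≠] (c : ℂ), s ∈ Metric.ball (a0 : ℂ) r2 ∧ s ≠ (a0 : ℂ) := by
          apply eventually_nhdsWithin_of_eventually_nhds
          have h13 : ∀ᶠ s in 𝓝 (c : ℂ), s ∈ Metric.ball (a0 : ℂ) r2 := Metric.isOpen_ball.mem_nhds hcmem2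
          have h14 : ∀ᶠ s in 𝓝 (c : ℂ), s ≠ (a0 : ℂ) := isOpen_ne.mem_nhds (by
            intro h
            have : c = a0 := by exact_mod_cast h
            linarith)
          exact h13.and h14
        filter_upwards [h10, hR c hca] with s h11 h12
        rw [← (hball2 s h11.1).2 h11.2, h12]
      filter_upwards [Metric.isOpen_ball.mem_nhds hcmem, hgR] with s hs hs4
      have h3 := hexpLg s hs
      have h4 : g s = exp (W s + ε * (s - 1) ^ k * LSeries a s) := hs4
      rw [h4] at h3
      have h5 : φ s = Lg s - (W s + ε * (s - 1) ^ k * LSeries a s) := by rw [hφ]; ring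
      rw [h5, Complex.exp_sub, h3, div_self (Complex.exp_ne_zero _)]
    have hconst : ∀ᶠ s in 𝓝 (c : ℂ), φ s = φ c := by
      have h2 : ∀ᶠ s in 𝓝 (c : ℂ), ‖φ s - φ c‖ < 2 * Real.pi := by
        have := (Metric.tendsto_nhds.1 hφc) (2 * Real.pi) (by positivity)
        filter_upwards [this] with s hs
        rwa [dist_eq_norm] at hs
      filter_upwards [hev, h2] with s hs1 hs2
      have h3 : exp (φ s - φ c) = 1 := by
        rw [Complex.exp_sub, hs1, hev.self_of_nhds, div_one]
      rw [Complex.exp_eq_one_iff] at h3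
      obtain ⟨n, hn⟩ := h3
      rw [hn] at hs2
      have h4 : ‖(n : ℂ) * (2 * Real.pi * I)‖ = |(n : ℝ)| * (2 * Real.pi) := by
        rw [norm_mul, norm_mul, norm_mul, Complex.norm_I, mul_one, Complex.norm_real,
          Real.norm_eq_abs, abs_of_pos Real.pi_pos]
        simp
      rw [h4] at hs2
      have h5 : |(n : ℝ)| < 1 := by
        by_contra hcon
        push Not at hcon
        have := mul_le_mul_of_nonneg_right hcon (by positivity : 0 ≤ 2 * Real.pi)
        linarith
      have h6 : n = 0 := by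
        have : |n| < 1 := by exact_mod_cast h5
        rwa [Int.abs_lt_one_iff] at this
      rw [h6] at hn
      simp only [Int.cast_zero, zero_mul] at hn
      exact sub_eq_zero.1 hn
    set H : ℂ → ℂ := fun s => ε * (Lg s - W s - φ c) / (s - 1) ^ k with hH
    have hne1 : ∀ s ∈ Metric.ball (a0 : ℂ) r, s - 1 ≠ 0 := by
      intro s hs h0
      have h2 := hre s hs
      have h3 : s = 1 := sub_eq_zero.1 h0
      rw [h3] at h2
      simp only [one_re] at h2
      linarith
    have hHd : DifferentiableOn ℂ H (Metric.ball (c : ℂ) (r / 2)) := by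
      apply DifferentiableOn.div _ (by fun_prop) (fun s hs => pow_ne_zero k (hne1 s (hsub hs)))
      apply DifferentiableOn.const_mul
      apply DifferentiableOn.sub_const
      exact (hLgd.mono hsub).sub (hW.mono (fun s hs => hre s (hsub hs)))
    have hHe : ∀ᶠ s in 𝓝 (c : ℂ), H s = LSeries a s := by
      filter_upwards [hconst, Metric.isOpen_ball.mem_nhds hcmem] with s hs1 hs2
      rw [hH]
      simp only
      rw [← hs1, hφ]
      simp only
      rw [div_eq_iff (pow_ne_zero k (hne1 s hs2))]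
      have : (ε : ℂ) * (Lg s - W s - (Lg s - W s - ε * (s - 1) ^ k * LSeries a s)) =
          (ε * ε) * ((s - 1) ^ k * LSeries a s) := by ring
      rw [this, hε2]
      ring
    have hcontr := landau_disc G hG H c (r / 2) (by positivity) hHd (by
      show LSeries.abscissaOfAbsConv a < (c : EReal)
      rw [ha0]
      exact_mod_cast (by rw [hc]; linarith : a0 < c)) hHe (a0 - r / 8) (by rw [hc]; linarith)
      (by rw [hc]; linarith)
    have h7 := hcontr.abscissaOfAbsConv_le
    rw [ha0] at h7
    simp only [ofReal_re] at h7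
    have h8 : a0 ≤ a0 - r / 8 := by exact_mod_cast h7
    linarith
  refine ⟨fun s hs => ?_, ?_⟩
  · apply LSeriesSummable_of_abscissaOfAbsConv_lt_re
    exact lt_of_le_of_lt hone (by exact_mod_cast hs)
  · exact spreadT θ k a ε F W hF hW hrel θ le_rfl hθ2 hone

end Pool.Agent.H472R3.NF
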