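import Pool.Agent.H472R3.NF.Gen12

/-! Two-sided bounds for the averages: no assumption on the continuation. -/

set_option autoImplicit false

open Complex Filter Topology Finset

namespace Pool.Agent.H472R3.NF

open Pool.Agent.H438R3.BSD hiding isOpen_re_gt main LA mm
open Pool.Agent.H438R3.BSD.GenN hiding main

variable {LL : ℕ → ℂ → ℂ} {ell : ℕ → ℝ} {A : ℝ} {u : ℕ → ℝ}

/-- The representation of the Euler product by the averages. -/
theorem relW2 (h : Loc LL ell A u) (ε κ C : ℝ) (hε : ε = 1 ∨ ε = -1) (F : ℂ → ℂ)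
    (hprod : ∀ s : ℂ, 3 / 2 < s.re → HasProd (fun p : ℕ => exp (LL p s)) (F s)) :
    ∃ W : ℂ → ℂ, DifferentiableOn ℂ W {s | 1 < s.re} ∧
      (∀ s : ℂ, 3 / 2 < s.re →
        F s = exp (W s + ε * (s - 1) ^ 2 * LSeries (fun n => (AS C (mm ell ε κ) n : ℂ)) s)) ∧
      ∃ K : ℝ, ∀ᶠ w : ℝ in 𝓝[>] 0, |(W (1 + w)).re - κ * Real.log w| ≤ K := by
  have hε1 : |ε| = 1 := by rcases hε with h | h <;> rw [h] <;> simp
  have hε2 : (ε : ℂ) * ε = 1 := by
    rcases hε with h | h <;> rw [h] <;> push_cast <;> ring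
  have hε3 : ε * ε = 1 := by rcases hε with h | h <;> rw [h] <;> norm_num
  have hApos := h.pos
  set m := mm ell ε κ with hm
  set Kc : ℝ := |C| + 2 * (|κ| + A) with hKc
  have hKc0 : 0 ≤ Kc := by positivity
  have hPS : ∀ n : ℕ, 1 ≤ n → |PS C m n| ≤ Kc * (n : ℝ) ^ (1 / 2 : ℝ) :=
    fun n hn => PS_le h ε κ C hε1 n hn
  have hAS : ∀ n : ℕ, 1 ≤ n → |AS C m n| ≤ 2 * Kc * (n : ℝ) ^ (1 / 2 : ℝ) :=
    fun n _ => AS_le hKc0 hPS n
  set E2 : ℂ → ℂ := EE 0 (fun k => PS C m k / k) with hE2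
  set W : ℂ → ℂ := fun s => (∑' p, dd LL ell p s) - κ * LSeries pr s - ε * (EE C m s + C)
    - ε * ((s - 1) * E2 s) with hW
  have hWd : DifferentiableOn ℂ W {s | 1 < s.re} := by
    apply DifferentiableOn.sub
    · apply DifferentiableOn.sub
      · exact (DD_differentiable h).sub (pr_differentiable.const_mul _)
      · exact ((EE_differentiable hKc0 hPS).add_const _).const_mul _
    · apply DifferentiableOn.const_mul
      apply DifferentiableOn.mul (by fun_prop)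
      exact EE_differentiable (by positivity : (0 : ℝ) ≤ 2 * Kc) hAS
  have hrel : ∀ s : ℂ, 3 / 2 < s.re →
      F s = exp (W s + ε * (s - 1) ^ 2 * LSeries (fun n => (AS C m n : ℂ)) s) := by
    intro s hs
    have hs1 : 1 < s.re := by linarith
    have hFe := prod_eq h hs (hprod s hs)
    have hP := P_hasSum h ε κ hs
    have hab := abel_rel hKc0 hPS s hs _ hP
    have hP2 : HasSum (fun n : ℕ => ((PS C m (n + 1) / ((n + 1 : ℕ) : ℝ) : ℝ) : ℂ) * ((n + 1 : ℕ) : ℂ) ^ (1 - s))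
        (LSeries (fun n => (PS C m n : ℂ)) s) := by
      have h3 : HasSum (LSeries.term (fun n => (PS C m n : ℂ)) s) (LSeries (fun n => (PS C m n : ℂ)) s) :=
        (PS_summable hPS s hs).hasSum
      have h4 := (hasSum_nat_add_iff' (f := LSeries.term (fun n => (PS C m n : ℂ)) s) 1).2 h3
      simp only [sum_range_one, LSeries.term_zero, sub_zero] at h4
      have e : (fun n : ℕ => ((PS C m (n + 1) / ((n + 1 : ℕ) : ℝ) : ℝ) : ℂ) * ((n + 1 : ℕ) : ℂ) ^ (1 - s)) =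
          fun n => LSeries.term (fun n => (PS C m n : ℂ)) s (n + 1) := by
        funext n
        have hn : ((n + 1 : ℕ) : ℂ) ≠ 0 := by exact_mod_cast (by omega : n + 1 ≠ 0)
        have hns : ((n + 1 : ℕ) : ℂ) ^ s ≠ 0 := by
          rw [Complex.cpow_ne_zero_iff]; exact Or.inl hn
        rw [LSeries.term_of_ne_zero (by omega : n + 1 ≠ 0), sub_eq_add_neg 1 s,
          Complex.cpow_add _ _ hn, Complex.cpow_one, Complex.cpow_neg]
        push_cast at hn hns ⊢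
        field_simp
      rw [e]
      exact h4
    have hab2 := abel_rel (C := 0) (m := fun k => PS C m k / k) (by positivity : (0 : ℝ) ≤ 2 * Kc) hAS s hs _ hP2
    have hab2' : (s - 1) * LSeries (fun n => (AS C m n : ℂ)) s = E2 s + LSeries (fun n => (PS C m n : ℂ)) s := by
      have := hab2
      simp only [Complex.ofReal_zero, add_zero] at this
      exact this
    rw [hFe]
    congr 1
    have e6 : (ε : ℂ) * (s - 1) ^ 2 * LSeries (fun n => (AS C m n : ℂ)) s =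
        ε * ((s - 1) * E2 s) + ε * (EE C m s + C + ε * (κ * LSeries pr s -
          ∑' n : ℕ, (ell n : ℂ) * (n : ℂ) ^ (1 - s))) := by
      have e7 : (ε : ℂ) * (s - 1) ^ 2 * LSeries (fun n => (AS C m n : ℂ)) s =
          ε * ((s - 1) * ((s - 1) * LSeries (fun n => (AS C m n : ℂ)) s)) := by ring
      rw [e7, hab2', ← hab]; ring
    rw [e6, hW]
    simp only
    linear_combination (-(κ * LSeries pr s - ∑' n : ℕ, (ell n : ℂ) * (n : ℂ) ^ (1 - s))) * hε2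
  obtain ⟨K1, hK1⟩ := DD_bound h
  obtain ⟨C1, hC1⟩ := Pool.Agent.H341R2.lam_bounded
  refine ⟨W, hWd, hrel, K1 + |κ| * C1 + (2 * Kc * K32 + |C|) + 4 * Kc * K32, ?_⟩
  have hw1 : ∀ᶠ w : ℝ in 𝓝[>] 0, w ≤ 1 := by
    have : Set.Iic (1 : ℝ) ∈ 𝓝 (0 : ℝ) := Iic_mem_nhds one_pos
    exact mem_nhdsWithin_of_mem_nhds this
  filter_upwards [hK1, hC1, self_mem_nhdsWithin, hw1] with w h1 h2 h3 h4
  have hw : (0 : ℝ) < w := h3
  have hre : (1 : ℝ) < ((1 : ℂ) + w).re := by simp [hw]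
  have h11 : (W (1 + w)).re = (∑' p, dd LL ell p (1 + w)).re - κ * Pool.Agent.H341R2.lam w -
      ε * ((EE C m (1 + w)).re + C) - ε * (w * (E2 (1 + w)).re) := by
    rw [hW]
    simp only
    rw [pr_eq_lam hw]
    have e8 : ((1 : ℂ) + w - 1) * E2 (1 + w) = (w : ℂ) * E2 (1 + w) := by ring
    rw [e8]
    simp only [sub_re, re_ofReal_mul, add_re, ofReal_re]
  have h12 : |(∑' p, dd LL ell p (1 + w)).re| ≤ K1 := (Complex.abs_re_le_norm _).trans h1
  have h13 : |(EE C m (1 + w)).re| ≤ 2 * Kc * K32 := by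
    refine (Complex.abs_re_le_norm _).trans ((EE_bound hKc0 hPS (1 + w) hre.le).2.trans ?_)
    have e3 : ‖(1 : ℂ) + w - 1‖ = w := by
      rw [add_sub_cancel_left, Complex.norm_real, Real.norm_eq_abs, abs_of_pos hw]
    have e4 : ‖(1 : ℂ) + w‖ = 1 + w := by
      have : ((1 : ℂ) + w) = ((1 + w : ℝ) : ℂ) := by push_cast; rfl
      rw [this, Complex.norm_real, Real.norm_eq_abs, abs_of_pos (by linarith)]
    rw [e3, e4]
    have hK32 : 0 ≤ K32 := tsum_nonneg fun n => by positivity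
    have e5 : w * (1 + w) ≤ 2 := by nlinarith
    calc w * (1 + w) * Kc * K32 ≤ 2 * Kc * K32 := by gcongr
      _ = _ := rfl
  have hK32 : 0 ≤ K32 := tsum_nonneg fun n => by positivity
  have h13b : |w * (E2 (1 + w)).re| ≤ 4 * Kc * K32 := by
    rw [abs_mul, abs_of_pos hw]
    have h20 : |(E2 (1 + w)).re| ≤ 4 * Kc * K32 := by
      refine (Complex.abs_re_le_norm _).trans
        ((EE_bound (by positivity : (0 : ℝ) ≤ 2 * Kc) hAS (1 + w) hre.le).2.trans ?_)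
      have e3 : ‖(1 : ℂ) + w - 1‖ = w := by
        rw [add_sub_cancel_left, Complex.norm_real, Real.norm_eq_abs, abs_of_pos hw]
      have e4 : ‖(1 : ℂ) + w‖ = 1 + w := by
        have : ((1 : ℂ) + w) = ((1 + w : ℝ) : ℂ) := by push_cast; rfl
        rw [this, Complex.norm_real, Real.norm_eq_abs, abs_of_pos (by linarith)]
      rw [e3, e4]
      have e5 : w * (1 + w) ≤ 2 := by nlinarith
      calc w * (1 + w) * (2 * Kc) * K32 ≤ 2 * (2 * Kc) * K32 := by gcongr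
        _ = 4 * Kc * K32 := by ring
    have h21 : 0 ≤ 4 * Kc * K32 := by positivity
    nlinarith [abs_nonneg (E2 (1 + w)).re]
  rw [h11]
  have h14 : |κ * (Pool.Agent.H341R2.lam w + Real.log w)| ≤ |κ| * C1 := by
    rw [abs_mul]; exact mul_le_mul_of_nonneg_left h2 (abs_nonneg _)
  have h15 := abs_le.1 h12
  have h16 := abs_le.1 h13
  have h17 := abs_le.1 h14
  have h18 := abs_le.1 (le_refl |C|)
  have h19 := abs_le.1 h13b
  have h20 : ∀ x : ℝ, |x| = |ε * x| := fun x => by rw [abs_mul, hε1, one_mul]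
  rw [abs_le]
  rcases hε with h | h
  · rw [h]
    constructor <;> nlinarith [h15.1, h15.2, h16.1, h16.2, h17.1, h17.2, h18.1, h18.2, h19.1, h19.2]
  · rw [h]
    constructor <;> nlinarith [h15.1, h15.2, h16.1, h16.2, h17.1, h17.2, h18.1, h18.2, h19.1, h19.2]

lemma harm_le (δ : ℝ) (hδ : 0 < δ) (n : ℕ) (hn : 1 ≤ n) :
    ∑ k ∈ Finset.Icc 1 n, (1 : ℝ) / k ≤ (1 + 1 / δ) * (n : ℝ) ^ δ := by
  have hn1 : (1 : ℝ) ≤ n := by exact_mod_cast hn
  have h1 : ∑ k ∈ Finset.Icc 1 n, (1 : ℝ) / k ≤ 1 + Real.log n := by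
    have h2 := harmonic_le_one_add_log n
    rw [harmonic_eq_sum_Icc] at h2
    push_cast at h2
    simpa only [one_div] using h2
  have h3 := Real.log_le_rpow_div (by linarith : (0 : ℝ) ≤ n) hδ
  have h4 : (1 : ℝ) ≤ (n : ℝ) ^ δ := Real.one_le_rpow hn1 hδ.le
  have h5 : (1 + 1 / δ) * (n : ℝ) ^ δ = (n : ℝ) ^ δ + (n : ℝ) ^ δ / δ := by ring
  linarith

lemma AS_neg (κ : ℝ) (n : ℕ) : AS 0 (mm ell (-1) κ) n = -AS 0 (mm ell 1 κ) n := by
  have h1 : ∀ k, mm ell (-1) κ k = -mm ell 1 κ k := fun k => by unfold mm; ring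
  unfold AS PS
  simp only [zero_add, h1, Finset.sum_neg_distrib, neg_div]

lemma summable_of_two (κ C1 C2 : ℝ) (h1 : ∀ n, 0 ≤ AS C1 (mm ell 1 κ) n)
    (h2 : ∀ n, 0 ≤ AS C2 (mm ell (-1) κ) n) (s : ℂ) (hs : 1 < s.re) :
    LSeriesSummable (fun n => (AS C1 (mm ell 1 κ) n : ℂ)) s ∧
    LSeriesSummable (fun n => (AS C2 (mm ell (-1) κ) n : ℂ)) s := by
  set δ : ℝ := (s.re - 1) / 2 with hδ
  have hδ0 : 0 < δ := by rw [hδ]; linarith
  have hsum : ∀ n, AS C1 (mm ell 1 κ) n + AS C2 (mm ell (-1) κ) n =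
      (C1 + C2) * ∑ k ∈ Finset.Icc 1 n, (1 : ℝ) / k := by
    intro n
    rw [AS_lin C1, AS_lin C2, AS_neg]
    ring
  have hle : ∀ n : ℕ, n ≠ 0 → (C1 + C2) * ∑ k ∈ Finset.Icc 1 n, (1 : ℝ) / k ≤
      |C1 + C2| * (1 + 1 / δ) * (n : ℝ) ^ (1 + δ - 1) := by
    intro n hn
    have h3 := harm_le δ hδ0 n (Nat.one_le_iff_ne_zero.2 hn)
    have h4 : 0 ≤ ∑ k ∈ Finset.Icc 1 n, (1 : ℝ) / k := Finset.sum_nonneg fun k _ => by positivity
    have e : 1 + δ - 1 = δ := by ring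
    rw [e]
    calc (C1 + C2) * ∑ k ∈ Finset.Icc 1 n, (1 : ℝ) / k
        ≤ |C1 + C2| * ∑ k ∈ Finset.Icc 1 n, (1 : ℝ) / k := mul_le_mul_of_nonneg_right (le_abs_self _) h4
      _ ≤ |C1 + C2| * ((1 + 1 / δ) * (n : ℝ) ^ δ) := mul_le_mul_of_nonneg_left h3 (abs_nonneg _)
      _ = _ := by ring
  constructor
  · apply LSeriesSummable_of_le_const_mul_rpow (x := 1 + δ) (by rw [hδ]; linarith)
    refine ⟨|C1 + C2| * (1 + 1 / δ), fun n hn => ?_⟩
    rw [Complex.norm_real, Real.norm_eq_abs, abs_of_nonneg (h1 n)]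
    have := hle n hn
    have h5 := hsum n
    have h6 := h2 n
    linarith
  · apply LSeriesSummable_of_le_const_mul_rpow (x := 1 + δ) (by rw [hδ]; linarith)
    refine ⟨|C1 + C2| * (1 + 1 / δ), fun n hn => ?_⟩
    rw [Complex.norm_real, Real.norm_eq_abs, abs_of_nonneg (h2 n)]
    have := hle n hn
    have h5 := hsum n
    have h6 := h1 n
    linarith

/-- one of the two halves -/
lemma absT (h : Loc LL ell A u) (ε κ C : ℝ) (hε : ε = 1 ∨ ε = -1)
    (hG : ∀ n, 0 ≤ AS C (mm ell ε κ) n)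
    (hsum : ∀ s : ℂ, 1 < s.re → LSeriesSummable (fun n => (AS C (mm ell ε κ) n : ℂ)) s)
    (F : ℂ → ℂ) (hprod : ∀ s : ℂ, 3 / 2 < s.re → HasProd (fun p : ℕ => exp (LL p s)) (F s)) :
    ∃ G : ℂ → ℂ, DifferentiableOn ℂ G {s | 1 < s.re} ∧ (∀ s : ℂ, 1 < s.re → G s ≠ 0) ∧
      (∀ s : ℂ, 3 / 2 < s.re → G s = F s) ∧
      ∃ K : ℝ, ∀ᶠ w : ℝ in 𝓝[>] 0, ε * (κ * Real.log w) - K ≤ ε * Real.log ‖G (1 + w)‖ := by
  obtain ⟨W, hW, hrel, K, hK⟩ := relW2 h ε κ C hε F hprod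
  set a : ℕ → ℂ := fun n => (AS C (mm ell ε κ) n : ℂ) with ha
  have hε1 : |ε| = 1 := by rcases hε with h | h <;> rw [h] <;> simp
  have hε3 : ε * ε = 1 := by rcases hε with h | h <;> rw [h] <;> norm_num
  have habs : LSeries.abscissaOfAbsConv a ≤ ((1 : ℝ) : EReal) :=
    LSeries.abscissaOfAbsConv_le_of_forall_lt_LSeriesSummable fun y hy => hsum y (by simpa using hy)
  have hL : DifferentiableOn ℂ (LSeries a) {s : ℂ | 1 < s.re} := by
    intro s hs
    refine (LSeries_analyticOnNhd a s ?_).differentiableAt.differentiableWithinAt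
    exact lt_of_le_of_lt habs (by exact_mod_cast hs)
  have hR : DifferentiableOn ℂ (fun s => exp (W s + ε * (s - 1) ^ 2 * LSeries a s)) {s : ℂ | 1 < s.re} := by
    apply DifferentiableOn.cexp
    apply hW.add
    apply DifferentiableOn.mul _ hL
    fun_prop
  refine ⟨_, hR, fun s _ => Complex.exp_ne_zero _, fun s hs => (hrel s hs).symm, K, ?_⟩
  filter_upwards [hK, self_mem_nhdsWithin] with w h1 h3
  have hw : (0 : ℝ) < w := h3
  have h7 : (ε * ((1 + w : ℂ) - 1) ^ 2 * LSeries a (1 + w)).re =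
      ε * (w ^ 2 * (LSeries a ((1 + w : ℝ) : ℂ)).re) := by
    have e1 : (ε : ℂ) * ((1 + w : ℂ) - 1) ^ 2 = ((ε * w ^ 2 : ℝ) : ℂ) := by push_cast; ring
    have e2 : ((1 : ℂ) + w) = ((1 + w : ℝ) : ℂ) := by push_cast; rfl
    rw [e1, Complex.re_ofReal_mul, e2]
    ring
  have h8 := re_LSeries_nonneg (AS C (mm ell ε κ)) hG (1 + w)
  have h9 : 0 ≤ w ^ 2 * (LSeries a ((1 + w : ℝ) : ℂ)).re := mul_nonneg (by positivity) h8
  rw [Complex.norm_exp, Real.log_exp, add_re, h7, mul_add, ← mul_assoc ε ε, hε3, one_mul]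
  have h10 : |ε * ((W (1 + w)).re - κ * Real.log w)| ≤ K := by
    rw [abs_mul, hε1, one_mul]; exact h1
  have h11 := (abs_le.1 h10).1
  have e3 : ε * ((W (1 + w)).re - κ * Real.log w) = ε * (W (1 + w)).re - ε * (κ * Real.log w) := by ring
  rw [e3] at h11
  linarith

/-- **Two-sided bounds for the logarithmic averages.** -/
theorem two_sided (h : Loc LL ell A u) (F : ℂ → ℂ)
    (hprod : ∀ s : ℂ, 3 / 2 < s.re → HasProd (fun p : ℕ => exp (LL p s)) (F s)) (κ C0 : ℝ)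
    (hb : ∀ᶠ n : ℕ in atTop, |GenN.LA (lE ell) κ n| ≤ C0) :
    ∃ G : ℂ → ℂ, DifferentiableOn ℂ G {s | 1 < s.re} ∧ (∀ s : ℂ, 1 < s.re → G s ≠ 0) ∧
      (∀ s : ℂ, 3 / 2 < s.re → G s = F s) ∧
      ∃ K : ℝ, ∀ᶠ w : ℝ in 𝓝[>] 0, |Real.log ‖G (1 + w)‖ - κ * Real.log w| ≤ K := by
  have hlog : ∀ᶠ x : ℕ in atTop, (1 : ℝ) < Real.log x :=
    (Real.tendsto_log_atTop.comp tendsto_natCast_atTop_atTop).eventually_gt_atTop _
  have hb' : ∀ ε : ℝ, (ε = 1 ∨ ε = -1) → ∀ᶠ n : ℕ in atTop, ε * (∑ k ∈ Finset.Icc 2 n,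
      (lE ell k - κ * Real.log (Real.log k)) / k) ≤ C0 * Real.log n := by
    intro ε hε
    filter_upwards [hb, hlog] with n h1 h2
    unfold GenN.LA at h1
    rw [abs_div, abs_of_pos (by linarith : 0 < Real.log n), div_le_iff₀ (by linarith)] at h1
    have hε1 : |ε| = 1 := by rcases hε with h | h <;> rw [h] <;> simp
    calc _ ≤ |ε * (∑ k ∈ Finset.Icc 2 n, (lE ell k - κ * Real.log (Real.log k)) / k)| := le_abs_self _
      _ = |∑ k ∈ Finset.Icc 2 n, (lE ell k - κ * Real.log (Real.log k)) / k| := by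
          rw [abs_mul, hε1, one_mul]
      _ ≤ _ := h1
  obtain ⟨C1, h1⟩ := exists_const2 h 1 κ (Or.inl rfl) C0 (hb' 1 (Or.inl rfl))
  obtain ⟨C2, h2⟩ := exists_const2 h (-1) κ (Or.inr rfl) C0 (hb' (-1) (Or.inr rfl))
  have hs := summable_of_two κ C1 C2 h1 h2
  obtain ⟨G, hGd, hG0, hGF, K1, hK1⟩ := absT h 1 κ C1 (Or.inl rfl) h1 (fun s hs' => (hs s hs').1) F hprod
  obtain ⟨G', hGd', hG0', hGF', K2, hK2⟩ := absT h (-1) κ C2 (Or.inr rfl) h2 (fun s hs' => (hs s hs').2) F hprod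
  have heq : ∀ s : ℂ, 1 < s.re → G s = G' s := by
    have e1 := hGd.analyticOnNhd (Complex.isOpen_re_gt 1)
    have e2 := hGd'.analyticOnNhd (Complex.isOpen_re_gt 1)
    have e3 := e1.eqOn_of_preconnected_of_eventuallyEq e2 (preconn_re_gt 1)
      (z₀ := (2 : ℂ)) (by show (1 : ℝ) < (2 : ℂ).re; simp only [re_ofNat]; norm_num) (by
        have : {s : ℂ | 3 / 2 < s.re} ∈ 𝓝 (2 : ℂ) :=
          (Complex.isOpen_re_gt (3 / 2)).mem_nhds (by show (3:ℝ) / 2 < (2 : ℂ).re; simp only [re_ofNat]; norm_num)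
        filter_upwards [this] with s hs
        rw [hGF s hs, hGF' s hs])
    exact fun s hs => e3 hs
  refine ⟨G, hGd, hG0, hGF, |K1| + |K2|, ?_⟩
  filter_upwards [hK1, hK2, self_mem_nhdsWithin] with w h3 h4 h5
  have hw : (0 : ℝ) < w := h5
  have hre : (1 : ℝ) < ((1 : ℂ) + w).re := by simp [hw]
  rw [← heq _ hre] at h4
  have h6 := le_abs_self K1
  have h7 := le_abs_self K2
  have h8 := abs_nonneg K1
  have h9 := abs_nonneg K2
  rw [abs_le]
  constructor <;> linarith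

end Pool.Agent.H472R3.NF
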