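import Pool.Agent.H472R3.NF.NF1
import Pool.Agent.H472R3.NF.Two1

/-! Elliptic curves over number fields: the final theorem. -/

set_option autoImplicit false

open Complex Filter Topology Finset NumberField IsDedekindDomain

namespace Pool.Agent.H472R3.NF

open Pool.Agent.H438R3.BSD.NF (Good Np EP LA log_EP EP_pos good cc locNF prodNF)

/-- two continuations agree near `1` on the right -/
lemma eq_near {F G : ℂ → ℂ} (hF : ∀ σ : ℝ, 1 ≤ σ → MeromorphicAt F (σ : ℂ))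
    (hG : DifferentiableOn ℂ G {s | 1 < s.re}) (hFG : ∀ s : ℂ, 3 / 2 < s.re → G s = F s) :
    ∀ᶠ w : ℝ in 𝓝[>] 0, F (1 + w) = G (1 + w) := by
  have h2 := hG.analyticOnNhd (Complex.isOpen_re_gt 1)
  set U : Set ℂ := (fun x : ℝ => (x : ℂ)) '' Set.Ioi 1 with hU
  have hUc : IsPreconnected U := isPreconnected_Ioi.image _ Complex.continuous_ofReal.continuousOn
  have h1 : MeromorphicOn (F - G) U := by
    rintro _ ⟨x, hx, rfl⟩
    exact (hF x (le_of_lt hx)).sub (h2 x (by show (1 : ℝ) < ((x : ℂ)).re; rw [ofReal_re]; exact hx)).meromorphicAt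
  have hall : ∀ σ : ℝ, 1 < σ → ∀ᶠ s in 𝓝[≠] (σ : ℂ), F s = G s := by
    intro σ hσ
    have h4 : meromorphicOrderAt (F - G) (σ : ℂ) = ⊤ := by
      by_contra hcon
      have h5 := MeromorphicOn.meromorphicOrderAt_ne_top_of_isPreconnected h1 hUc ⟨σ, hσ, rfl⟩
        (y := ((2 : ℝ) : ℂ)) ⟨2, by show (1 : ℝ) < 2; norm_num, rfl⟩ hcon
      apply h5
      rw [meromorphicOrderAt_eq_top_iff]
      apply eventually_nhdsWithin_of_eventually_nhds
      have : {s : ℂ | 3 / 2 < s.re} ∈ 𝓝 ((2 : ℝ) : ℂ) :=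
        (Complex.isOpen_re_gt (3 / 2)).mem_nhds (by show (3:ℝ) / 2 < ((2 : ℝ) : ℂ).re; simp only [ofReal_re]; norm_num)
      filter_upwards [this] with s hs
      rw [Pi.sub_apply, hFG s hs, sub_self]
    rw [meromorphicOrderAt_eq_top_iff] at h4
    filter_upwards [h4] with s hs
    rw [Pi.sub_apply] at hs
    exact sub_eq_zero.1 hs
  have hpath : Tendsto (fun w : ℝ => (((1 + w : ℝ)) : ℂ)) (𝓝[>] 0) (𝓝[≠] ((1 : ℝ) : ℂ)) := by
    refine (tendsto_ofReal_nhdsGT 1).comp ?_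
    apply tendsto_nhdsWithin_of_tendsto_nhds_of_eventually_within
    · have : ContinuousAt (fun w : ℝ => 1 + w) 0 := by fun_prop
      have h3 := this.tendsto
      rw [add_zero] at h3
      exact h3.mono_left nhdsWithin_le_nhds
    · filter_upwards [self_mem_nhdsWithin] with w hw
      have : (0 : ℝ) < w := hw
      show (1 : ℝ) < 1 + w
      linarith
  filter_upwards [hpath.eventually (hF 1 le_rfl).eventually_analyticAt, self_mem_nhdsWithin] with w h6 h7
  have hw : (1 : ℝ) < 1 + w := by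
    have : (0 : ℝ) < w := h7
    linarith
  have h8 := (h6.frequently_eq_iff_eventually_eq (h2 ((1 + w : ℝ) : ℂ)
    (by show (1 : ℝ) < (((1 + w : ℝ)) : ℂ).re; rwa [ofReal_re]))).1 (hall (1 + w) hw).frequently
  have h9 := h8.self_of_nhds
  push_cast at h9
  exact h9

/-- the exponent of `w` is unique -/
lemma exponent_unique {f : ℝ → ℝ} {κ μ K1 K2 : ℝ}
    (h1 : ∀ᶠ w : ℝ in 𝓝[>] 0, |f w - κ * Real.log w| ≤ K1)
    (h2 : ∀ᶠ w : ℝ in 𝓝[>] 0, |f w - μ * Real.log w| ≤ K2) : κ = μ := by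
  by_contra hne
  have hpos : 0 < |κ - μ| := abs_pos.2 (sub_ne_zero.2 hne)
  have hbot : Tendsto (fun w : ℝ => Real.log w) (𝓝[>] 0) atBot := Real.tendsto_log_nhdsGT_zero
  have hev := hbot.eventually (eventually_lt_atBot (-((K1 + K2 + 1) / |κ - μ|) - 1))
  obtain ⟨w, h3, h4, h5⟩ := (h1.and (h2.and hev)).exists
  have h6 : |(κ - μ) * Real.log w| ≤ K1 + K2 := by
    have e : (κ - μ) * Real.log w = (f w - μ * Real.log w) - (f w - κ * Real.log w) := by ring
    rw [e]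
    exact (abs_sub _ _).trans (by linarith)
  rw [abs_mul] at h6
  have hK : 0 ≤ K1 + K2 := (by positivity : 0 ≤ |κ - μ| * |Real.log w|).trans h6
  have h7 : (K1 + K2 + 1) / |κ - μ| < |Real.log w| := by
    have h8 : (0 : ℝ) ≤ (K1 + K2 + 1) / |κ - μ| := by positivity
    have h9 : Real.log w < 0 := by linarith
    rw [abs_of_neg h9]
    linarith
  rw [div_lt_iff₀ hpos] at h7
  linarith

variable {K : Type} [Field K] [NumberField K]

/-- the logarithmic averages determine the continuation to `Re s > 1` and the order at `1` -/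
theorem main2 (a b : 𝓞 K) {F : ℂ → ℂ} (hprod : ∀ s : ℂ, 3 / 2 < s.re → IsProd a b s (F s))
    (κ C : ℝ) (hC : ∀ᶠ x : ℕ in atTop, |LA a b κ x| ≤ C) :
    ∃ G : ℂ → ℂ, DifferentiableOn ℂ G {s | 1 < s.re} ∧ (∀ s : ℂ, 1 < s.re → G s ≠ 0) ∧
      (∀ s : ℂ, 3 / 2 < s.re → G s = F s) ∧
      ∃ B : ℝ, ∀ᶠ w : ℝ in 𝓝[>] 0, |Real.log ‖G (1 + w)‖ - κ * Real.log w| ≤ B := by
  classical
  set g : ℕ → ℝ := Pool.Agent.H438R3.BSD.GenN.lE (Pool.Agent.H438R3.BSD.GenN.ellc (good a b) (cc a b)) with hg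
  have hLA : ∀ κ x, LA a b κ x = Pool.Agent.H438R3.BSD.GenN.LA g κ x := by
    intro κ x
    unfold LA Pool.Agent.H438R3.BSD.GenN.LA
    simp_rw [log_EP]
    rfl
  exact two_sided (locNF a b) F (fun s hs => prodNF a b (by linarith : 1 ≤ s.re) (hprod s hs)) κ C
    (by filter_upwards [hC] with x hx; rw [← hLA]; exact hx)

theorem order_eq (a b : 𝓞 K) {F : ℂ → ℂ} (hF : ∀ σ : ℝ, 1 ≤ σ → MeromorphicAt F (σ : ℂ))
    (hprod : ∀ s : ℂ, 3 / 2 < s.re → IsProd a b s (F s)) (m : ℤ) (hm : meromorphicOrderAt F 1 = m)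
    (κ C : ℝ) (hC : ∀ᶠ x : ℕ in atTop, |LA a b κ x| ≤ C) : κ = m := by
  obtain ⟨G, hG, -, hGF, B, hB⟩ := main2 a b hprod κ C hC
  have h1 := eq_near hF hG hGF
  have hF1 : MeromorphicAt F 1 := by simpa using hF 1 le_rfl
  obtain ⟨C3, hC3⟩ := Pool.Agent.H341R2.log_norm_meromorphic hF1 hm
  refine exponent_unique hB (μ := (m : ℝ)) (K2 := C3) ?_
  filter_upwards [h1, hC3] with w h2 h3
  rw [← h2]
  exact h3.2

end Pool.Agent.H472R3.NF
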