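import Pool.Agent.H472R3.NF.CoreT
import Pool.Agent.H472R3.NF.Two1

/-! Power bounds for the products and the half planes `Re s > 1 + δ`. -/

set_option autoImplicit false

open Complex Filter Topology Finset

namespace Pool.Agent.H472R3.NF

open Pool.Agent.H438R3.BSD hiding isOpen_re_gt main LA mm
open Pool.Agent.H438R3.BSD.GenN hiding main

variable {LL : ℕ → ℂ → ℂ} {ell : ℕ → ℝ} {A : ℝ} {u : ℕ → ℝ}

/-- the Dirichlet series of `n ^ δ` -/
lemma pow_series (δ : ℝ) {s : ℂ} (hs : 1 + δ < s.re) :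
    LSeriesSummable (fun n : ℕ => (((n : ℝ) ^ δ : ℝ) : ℂ)) s ∧
    LSeries (fun n : ℕ => (((n : ℝ) ^ δ : ℝ) : ℂ)) s = riemannZeta (s - δ) := by
  have hs1 : 1 < (s - (δ : ℂ)).re := by simp only [sub_re, ofReal_re]; linarith
  have e : LSeries.term (fun n : ℕ => (((n : ℝ) ^ δ : ℝ) : ℂ)) s = LSeries.term 1 (s - δ) := by
    funext n
    rcases eq_or_ne n 0 with h0 | h0
    · simp [h0]
    · rw [LSeries.term_of_ne_zero h0, LSeries.term_of_ne_zero h0]
      have hn : (n : ℂ) ≠ 0 := by exact_mod_cast h0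
      rw [Complex.ofReal_cpow (by positivity), Complex.ofReal_natCast, Complex.cpow_sub _ _ hn,
        Pi.one_apply, one_div, inv_div]
  constructor
  · unfold LSeriesSummable
    rw [e]
    exact LSeriesSummable_one_iff.2 hs1
  · unfold LSeries
    rw [e]
    exact LSeries_one_eq_riemannZeta hs1

/-- The representation of the Euler product by the partial sums. -/
theorem relT (h : Loc LL ell A u) (ε δ C : ℝ) (hε : ε = 1 ∨ ε = -1) (hδ : 0 ≤ δ) (hδ2 : δ ≤ 1 / 2)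
    (F : ℂ → ℂ) (hprod : ∀ s : ℂ, 3 / 2 < s.re → HasProd (fun p : ℕ => exp (LL p s)) (F s)) :
    ∃ W : ℂ → ℂ, DifferentiableOn ℂ W {s | 1 + δ < s.re} ∧
      (∀ s : ℂ, 3 / 2 < s.re →
        F s = exp (W s + ε * (s - 1) ^ 1 *
          LSeries (fun n => ((C * (n : ℝ) ^ δ - ε * lE ell n : ℝ) : ℂ)) s)) ∧
      ∀ s : ℂ, 3 / 2 < s.re → LSeriesSummable (fun n => ((C * (n : ℝ) ^ δ - ε * lE ell n : ℝ) : ℂ)) s := by
  have hε1 : |ε| = 1 := by rcases hε with h | h <;> rw [h] <;> simp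
  have hε2 : (ε : ℂ) * ε = 1 := by
    rcases hε with h | h <;> rw [h] <;> push_cast <;> ring
  have hApos := h.pos
  set m := mm ell ε 0 with hm
  set Kc : ℝ := |(0 : ℝ)| + 2 * (|(0 : ℝ)| + A) with hKc
  have hKc0 : 0 ≤ Kc := by positivity
  have hPS : ∀ n : ℕ, 1 ≤ n → |PS 0 m n| ≤ Kc * (n : ℝ) ^ (1 / 2 : ℝ) :=
    fun n hn => PS_le h ε 0 0 hε1 n hn
  have hPSe : ∀ n, PS 0 m n = -(ε * lE ell n) := by
    intro n
    rw [hm, PS_eq h]
    ring
  have hsp : ∀ s : ℂ, 3 / 2 < s.re → LSeriesSummable (fun n => ((C * (n : ℝ) ^ δ - ε * lE ell n : ℝ) : ℂ)) s ∧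
      LSeries (fun n => ((C * (n : ℝ) ^ δ - ε * lE ell n : ℝ) : ℂ)) s =
        C * riemannZeta (s - δ) + LSeries (fun n => (PS 0 m n : ℂ)) s := by
    intro s hs
    have h1 := pow_series δ (s := s) (by linarith)
    have h2 := PS_summable hPS s hs
    have h3 := (h1.1.smul (C : ℂ)).add h2
    have e : (C : ℂ) • (fun n : ℕ => (((n : ℝ) ^ δ : ℝ) : ℂ)) + (fun n => (PS 0 m n : ℂ)) =
        fun n : ℕ => ((C * (n : ℝ) ^ δ - ε * lE ell n : ℝ) : ℂ) := by
      funext n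
      simp only [Pi.add_apply, Pi.smul_apply, smul_eq_mul]
      rw [hPSe]
      push_cast
      ring
    have h4 := LSeries_add (h1.1.smul (C : ℂ)) h2
    rw [LSeries_smul, h1.2] at h4
    rw [e] at h3 h4
    exact ⟨h3, by rw [h4]⟩
  set W0 : ℂ → ℂ := fun s => (∑' p, dd LL ell p s) - ε * (EE 0 m s) with hW0
  have hWd0 : DifferentiableOn ℂ W0 {s | 1 < s.re} :=
    (DD_differentiable h).sub ((EE_differentiable hKc0 hPS).const_mul _)
  have hz : DifferentiableOn ℂ (fun s => riemannZeta (s - δ)) {s | 1 + δ < s.re} := by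
    intro s hs
    have hs' : 1 + δ < s.re := hs
    have hne : s - (δ : ℂ) ≠ 1 := by
      intro h1
      have := congrArg Complex.re h1
      simp only [sub_re, ofReal_re, one_re] at this
      linarith
    have h1 : DifferentiableAt ℂ riemannZeta (s - δ) := differentiableAt_riemannZeta hne
    exact (h1.comp s (by fun_prop : DifferentiableAt ℂ (fun s : ℂ => s - (δ : ℂ)) s)).differentiableWithinAt
  refine ⟨fun s => W0 s - ε * (s - 1) * (C * riemannZeta (s - δ)), ?_, ?_, fun s hs => (hsp s hs).1⟩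
  · apply DifferentiableOn.sub
    · exact hWd0.mono (fun s (hs : 1 + δ < s.re) => (by show (1 : ℝ) < s.re; linarith))
    · exact (DifferentiableOn.mul (by fun_prop) (hz.const_mul _))
  · intro s hs
    have hFe := prod_eq h hs (hprod s hs)
    have hP := P_hasSum h ε 0 hs
    have hab := abel_rel hKc0 hPS s hs _ hP
    rw [(hsp s hs).2, hFe]
    congr 1
    have e6 : (ε : ℂ) * ((s - 1) * LSeries (fun n => (PS 0 m n : ℂ)) s) =
        ε * (EE 0 m s) - (ε * ε) * ∑' n : ℕ, (ell n : ℂ) * (n : ℂ) ^ (1 - s) := by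
      rw [hab]
      push_cast
      ring
    rw [hε2] at e6
    rw [hW0]
    simp only
    linear_combination -e6

/-- From a one-sided or two-sided bound to the continuation: the last step. -/
lemma zfT (ε δ : ℝ) (a : ℕ → ℂ) (F W : ℂ → ℂ) (hW : DifferentiableOn ℂ W {s | 1 + δ < s.re})
    (hsum : ∀ s : ℂ, 1 + δ < s.re → LSeriesSummable a s)
    (hrel : ∀ s : ℂ, 3 / 2 < s.re → F s = exp (W s + ε * (s - 1) ^ 1 * LSeries a s)) :
    ∃ G : ℂ → ℂ, DifferentiableOn ℂ G {s | 1 + δ < s.re} ∧ (∀ s : ℂ, 1 + δ < s.re → G s ≠ 0) ∧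
      ∀ s : ℂ, 3 / 2 < s.re → G s = F s := by
  have habs : LSeries.abscissaOfAbsConv a ≤ ((1 + δ : ℝ) : EReal) :=
    LSeries.abscissaOfAbsConv_le_of_forall_lt_LSeriesSummable fun y hy => hsum y (by simpa using hy)
  have hL : DifferentiableOn ℂ (LSeries a) {s : ℂ | 1 + δ < s.re} := by
    intro s hs
    refine (LSeries_analyticOnNhd a s ?_).differentiableAt.differentiableWithinAt
    have hs' : 1 + δ < s.re := hs
    exact lt_of_le_of_lt habs (by exact_mod_cast hs')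
  have hR : DifferentiableOn ℂ (fun s => exp (W s + ε * (s - 1) ^ 1 * LSeries a s)) {s : ℂ | 1 + δ < s.re} := by
    apply DifferentiableOn.cexp
    apply hW.add
    apply DifferentiableOn.mul _ hL
    fun_prop
  exact ⟨_, hR, fun s _ => Complex.exp_ne_zero _, fun s hs => (hrel s hs).symm⟩

/-- a constant which makes all coefficients nonnegative -/
lemma const_all (ε δ C0 : ℝ) (hδ : 0 ≤ δ) (hb : ∀ᶠ n : ℕ in atTop, ε * lE ell n ≤ C0 * (n : ℝ) ^ δ) :
    ∃ C : ℝ, 0 ≤ C ∧ ∀ n : ℕ, 0 ≤ C * (n : ℝ) ^ δ - ε * lE ell n := by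
  obtain ⟨n0, hn0⟩ := eventually_atTop.1 hb
  refine ⟨|C0| + ∑ k ∈ Finset.range (n0 + 1), |ε * lE ell k|, by positivity, fun n => ?_⟩
  rcases Nat.eq_zero_or_pos n with h0 | h0
  · have : lE ell 0 = 0 := by unfold lE; simp
    rw [h0, this, mul_zero, sub_zero]
    positivity
  have hn1 : (1 : ℝ) ≤ n := by exact_mod_cast h0
  have hp : (1 : ℝ) ≤ (n : ℝ) ^ δ := Real.one_le_rpow hn1 hδ
  have hS : 0 ≤ ∑ k ∈ Finset.range (n0 + 1), |ε * lE ell k| := Finset.sum_nonneg fun k _ => abs_nonneg _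
  have hC := abs_nonneg C0
  rcases Nat.lt_or_ge n n0 with h1 | h1
  · have h2 : |ε * lE ell n| ≤ ∑ k ∈ Finset.range (n0 + 1), |ε * lE ell k| :=
      Finset.single_le_sum (f := fun k => |ε * lE ell k|) (fun k _ => abs_nonneg _)
        (Finset.mem_range.2 (by omega))
    have h3 := le_abs_self (ε * lE ell n)
    nlinarith
  · have h2 := hn0 n h1
    have h3 := le_abs_self C0
    nlinarith

/-- **Two-sided bounds**: no assumption on the continuation. -/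
theorem two_sidedT (h : Loc LL ell A u) (δ C0 : ℝ) (hδ : 0 ≤ δ) (hδ2 : δ ≤ 1 / 2)
    (F : ℂ → ℂ) (hprod : ∀ s : ℂ, 3 / 2 < s.re → HasProd (fun p : ℕ => exp (LL p s)) (F s))
    (hb : ∀ᶠ n : ℕ in atTop, |lE ell n| ≤ C0 * (n : ℝ) ^ δ) :
    ∃ G : ℂ → ℂ, DifferentiableOn ℂ G {s | 1 + δ < s.re} ∧ (∀ s : ℂ, 1 + δ < s.re → G s ≠ 0) ∧
      ∀ s : ℂ, 3 / 2 < s.re → G s = F s := by
  obtain ⟨C1, hC1, h1⟩ := const_all (ell := ell) 1 δ C0 hδ (by
    filter_upwards [hb] with n hn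
    rw [one_mul]
    exact (le_abs_self _).trans hn)
  obtain ⟨C2, hC2, h2⟩ := const_all (ell := ell) (-1) δ C0 hδ (by
    filter_upwards [hb] with n hn
    rw [neg_one_mul]
    exact (neg_le_abs _).trans hn)
  obtain ⟨W, hW, hrel, -⟩ := relT h 1 δ C1 (Or.inl rfl) hδ hδ2 F hprod
  refine zfT 1 δ _ F W hW (fun s hs => ?_) hrel
  apply LSeriesSummable_of_le_const_mul_rpow (x := 1 + δ) hs
  refine ⟨C1 + C2, fun n hn => ?_⟩
  rw [Complex.norm_real, Real.norm_eq_abs, abs_of_nonneg (h1 n)]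
  have h3 := h2 n
  have e : 1 + δ - 1 = δ := by ring
  rw [e]
  linarith

/-- **One-sided bounds.** -/
theorem one_sidedT (h : Loc LL ell A u) (ε δ C0 : ℝ) (hε : ε = 1 ∨ ε = -1) (hδ : 0 ≤ δ) (hδ2 : δ ≤ 1 / 2)
    (F : ℂ → ℂ) (hF : ∀ σ : ℝ, 1 + δ < σ → MeromorphicAt F (σ : ℂ))
    (hprod : ∀ s : ℂ, 3 / 2 < s.re → HasProd (fun p : ℕ => exp (LL p s)) (F s))
    (hreal1 : ε = 1 → ∀ σ : ℝ, 1 + δ < σ → 0 ≤ meromorphicOrderAt F σ)
    (hreal2 : ε = -1 → ∀ σ : ℝ, 1 + δ < σ → meromorphicOrderAt F σ ≤ 0)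
    (hb : ∀ᶠ n : ℕ in atTop, ε * lE ell n ≤ C0 * (n : ℝ) ^ δ) :
    ∃ G : ℂ → ℂ, DifferentiableOn ℂ G {s | 1 + δ < s.re} ∧ (∀ s : ℂ, 1 + δ < s.re → G s ≠ 0) ∧
      ∀ s : ℂ, 3 / 2 < s.re → G s = F s := by
  obtain ⟨C, hC, h1⟩ := const_all (ell := ell) ε δ C0 hδ hb
  obtain ⟨W, hW, hrel, hsum⟩ := relT h ε δ C hε hδ hδ2 F hprod
  obtain ⟨h2, -⟩ := coreT (1 + δ) (by linarith) (by linarith) 1
    (fun n : ℕ => C * (n : ℝ) ^ δ - ε * lE ell n) h1 ε hε F W hF hW hsum hrel hreal1 hreal2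
  exact zfT ε δ _ F W hW h2 hrel

end Pool.Agent.H472R3.NF
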