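import Pool.Agent.H472R3.NF.Fin
import Pool.Agent.H472R3.NF.GenT

/-! Elliptic curves over number fields: power bounds for the products. -/

set_option autoImplicit false

open Complex Filter Topology Finset NumberField IsDedekindDomain

namespace Pool.Agent.H472R3.NF

open Pool.Agent.H438R3.BSD.NF (Good Np EP LA log_EP EP_pos good cc locNF prodNF)

variable {K : Type} [Field K] [NumberField K]

/-- the Euler product has a holomorphic continuation without zeros to `Re s > 1 + δ` -/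
def ZeroFreeAt (a b : 𝓞 K) (δ : ℝ) : Prop :=
  ∃ G : ℂ → ℂ, DifferentiableOn ℂ G {s | 1 + δ < s.re} ∧ (∀ s : ℂ, 1 + δ < s.re → G s ≠ 0) ∧
    ∀ s : ℂ, 3 / 2 < s.re → IsProd a b s (G s)

theorem two_sided_main (a b : 𝓞 K) (F : ℂ → ℂ) (hprod : ∀ s : ℂ, 3 / 2 < s.re → IsProd a b s (F s))
    (δ : ℝ) (hδ : 0 ≤ δ) (hδ2 : δ ≤ 1 / 2) (hZ : ¬ ZeroFreeAt a b δ) (C : ℝ) :
    ∃ᶠ x : ℕ in atTop, C * (x : ℝ) ^ δ < |Real.log (EP a b x)| := by
  classical
  by_contra hcon
  rw [Filter.not_frequently] at hcon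
  apply hZ
  obtain ⟨G, h1, h2, h3⟩ := two_sidedT (locNF a b) δ C hδ hδ2 F
    (fun s hs => prodNF a b (by linarith : 1 ≤ s.re) (hprod s hs)) (by
      filter_upwards [hcon] with x hx
      push Not at hx
      rw [log_EP] at hx
      exact hx)
  exact ⟨G, h1, h2, fun s hs => by rw [h3 s hs]; exact hprod s hs⟩

theorem one_sided_main (a b : 𝓞 K) (F : ℂ → ℂ) (hprod : ∀ s : ℂ, 3 / 2 < s.re → IsProd a b s (F s))
    (δ : ℝ) (hδ : 0 ≤ δ) (hδ2 : δ ≤ 1 / 2) (hF : ∀ σ : ℝ, 1 + δ < σ → MeromorphicAt F (σ : ℂ))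
    (hZ : ¬ ZeroFreeAt a b δ) (C : ℝ) :
    ((∀ σ : ℝ, 1 + δ < σ → 0 ≤ meromorphicOrderAt F σ) →
      ∃ᶠ x : ℕ in atTop, C * (x : ℝ) ^ δ < Real.log (EP a b x)) ∧
    ((∀ σ : ℝ, 1 + δ < σ → meromorphicOrderAt F σ ≤ 0) →
      ∃ᶠ x : ℕ in atTop, Real.log (EP a b x) < -(C * (x : ℝ) ^ δ)) := by
  classical
  constructor
  · intro hpole
    by_contra hcon
    rw [Filter.not_frequently] at hcon
    apply hZ
    obtain ⟨G, h1, h2, h3⟩ := one_sidedT (locNF a b) 1 δ C (Or.inl rfl) hδ hδ2 F hF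
      (fun s hs => prodNF a b (by linarith : 1 ≤ s.re) (hprod s hs)) (fun _ => hpole) (by norm_num) (by
        filter_upwards [hcon] with x hx
        push Not at hx
        rw [log_EP] at hx
        rw [one_mul]
        exact hx)
    exact ⟨G, h1, h2, fun s hs => by rw [h3 s hs]; exact hprod s hs⟩
  · intro hzero
    by_contra hcon
    rw [Filter.not_frequently] at hcon
    apply hZ
    obtain ⟨G, h1, h2, h3⟩ := one_sidedT (locNF a b) (-1) δ C (Or.inr rfl) hδ hδ2 F hF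
      (fun s hs => prodNF a b (by linarith : 1 ≤ s.re) (hprod s hs)) (by norm_num) (fun _ => hzero) (by
        filter_upwards [hcon] with x hx
        push Not at hx
        rw [log_EP] at hx
        linarith)
    exact ⟨G, h1, h2, fun s hs => by rw [h3 s hs]; exact hprod s hs⟩

end Pool.Agent.H472R3.NF
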