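import Pool.Agent.H438R3.BSD.GenN2
import Pool.Agent.H472R3.NF.Core1

/-! The abstract theorem of `H438R3.BSD.GenN`, for a continuation which is only assumed to be
meromorphic at the points of the real half line `[1, ∞)`. -/

set_option autoImplicit false

open Complex Filter Topology Finset

namespace Pool.Agent.H472R3.NF

open Pool.Agent.H438R3.BSD hiding isOpen_re_gt
open Pool.Agent.H438R3.BSD.GenN

/-- the restriction of `F` to `Re s > 3/2` has a holomorphic continuation without zeros to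
`Re s > 1` -/
def ZF (F : ℂ → ℂ) : Prop :=
  ∃ G : ℂ → ℂ, DifferentiableOn ℂ G {s | 1 < s.re} ∧ (∀ s : ℂ, 1 < s.re → G s ≠ 0) ∧
    ∀ s : ℂ, 3 / 2 < s.re → G s = F s

lemma transfer (k : ℕ) (a : ℕ → ℂ) (ε : ℂ) (F W : ℂ → ℂ) (hF : MeromorphicAt F ((1 : ℝ) : ℂ))
    (hW : DifferentiableOn ℂ W {s | 1 < s.re})
    (hsum : ∀ s : ℂ, 1 < s.re → LSeriesSummable a s)
    (hrel : ∀ s : ℂ, 3 / 2 < s.re → F s = exp (W s + ε * (s - 1) ^ k * LSeries a s))
    (hall : ∀ σ : ℝ, 1 < σ → ∀ᶠ s in 𝓝[≠] (σ : ℂ), F s = exp (W s + ε * (s - 1) ^ k * LSeries a s)) :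
    ZF F ∧ ∀ᶠ w : ℝ in 𝓝[>] 0, F (1 + w) = exp (W (1 + w) + ε * ((1 + w : ℂ) - 1) ^ k * LSeries a (1 + w)) := by
  have habs : LSeries.abscissaOfAbsConv a ≤ ((1 : ℝ) : EReal) :=
    LSeries.abscissaOfAbsConv_le_of_forall_lt_LSeriesSummable fun y hy => hsum y (by simpa using hy)
  have hL : DifferentiableOn ℂ (LSeries a) {s : ℂ | 1 < s.re} := by
    intro s hs
    refine (LSeries_analyticOnNhd a s ?_).differentiableAt.differentiableWithinAt
    exact lt_of_le_of_lt habs (by exact_mod_cast hs)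
  have hR : DifferentiableOn ℂ (fun s => exp (W s + ε * (s - 1) ^ k * LSeries a s)) {s : ℂ | 1 < s.re} := by
    apply DifferentiableOn.cexp
    apply hW.add
    apply DifferentiableOn.mul _ hL
    fun_prop
  refine ⟨⟨_, hR, fun s _ => Complex.exp_ne_zero _, fun s hs => (hrel s hs).symm⟩, ?_⟩
  have h2 := hR.analyticOnNhd (Complex.isOpen_re_gt 1)
  have hpath : Tendsto (fun w : ℝ => (((1 + w : ℝ)) : ℂ)) (𝓝[>] 0) (𝓝[≠] ((1 : ℝ) : ℂ)) := by
    refine (tendsto_ofReal_nhdsGT 1).comp ?_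
    apply tendsto_nhdsWithin_of_tendsto_nhds_of_eventually_within
    · have : ContinuousAt (fun w : ℝ => 1 + w) 0 := by fun_prop
      have h3 := this.tendsto
      rw [add_zero] at h3
      exact h3.mono_left nhdsWithin_le_nhds
    · filter_upwards [self_mem_nhdsWithin] with w hw
      have : (0 : ℝ) < w := hw
      show (1 : ℝ) < 1 + w
      linarith
  filter_upwards [hpath.eventually hF.eventually_analyticAt, self_mem_nhdsWithin] with w h6 h7
  have hw : (1 : ℝ) < 1 + w := by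
    have : (0 : ℝ) < w := h7
    linarith
  have h8 := (h6.frequently_eq_iff_eventually_eq (h2 ((1 + w : ℝ) : ℂ)
    (by show (1 : ℝ) < (((1 + w : ℝ)) : ℂ).re; rwa [ofReal_re]))).1 (hall (1 + w) hw).frequently
  have h9 := h8.self_of_nhds
  push_cast at h9
  exact h9

variable {LL : ℕ → ℂ → ℂ} {ell : ℕ → ℝ} {A : ℝ} {u : ℕ → ℝ}

/-- The abstract theorem. -/
theorem main_absM (h : Loc LL ell A u) (ε κ C : ℝ) (hε : ε = 1 ∨ ε = -1)
    (hG : ∀ n, 0 ≤ PS C (mm ell ε κ) n) (F : ℂ → ℂ) (hF : ∀ σ : ℝ, 1 ≤ σ → MeromorphicAt F (σ : ℂ))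
    (hprod : ∀ s : ℂ, 3 / 2 < s.re → HasProd (fun p : ℕ => exp (LL p s)) (F s))
    (hreal1 : ε = 1 → ∀ σ : ℝ, 1 < σ → 0 ≤ meromorphicOrderAt F σ)
    (hreal2 : ε = -1 → ∀ σ : ℝ, 1 < σ → meromorphicOrderAt F σ ≤ 0) :
    ZF F ∧
    ∃ K : ℝ, ∀ᶠ w : ℝ in 𝓝[>] 0, ε * (κ * Real.log w) - K ≤ ε * Real.log ‖F (1 + w)‖ := by
  have hε1 : |ε| = 1 := by rcases hε with h | h <;> rw [h] <;> simp
  have hε2 : (ε : ℂ) * ε = 1 := by
    rcases hε with h | h <;> rw [h] <;> push_cast <;> ring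
  have hε3 : ε * ε = 1 := by rcases hε with h | h <;> rw [h] <;> norm_num
  have hApos := h.pos
  set m := mm ell ε κ with hm
  set Kc : ℝ := |C| + 2 * (|κ| + A) with hKc
  have hKc0 : 0 ≤ Kc := by positivity
  have hPS : ∀ n : ℕ, 1 ≤ n → |PS C m n| ≤ Kc * (n : ℝ) ^ (1 / 2 : ℝ) :=
    fun n hn => PS_le h ε κ C hε1 n hn
  set W : ℂ → ℂ := fun s => (∑' p, dd LL ell p s) - κ * LSeries pr s - ε * (EE C m s + C) with hW
  have hWd : DifferentiableOn ℂ W {s | 1 < s.re} := by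
    apply DifferentiableOn.sub
    · exact (DD_differentiable h).sub (pr_differentiable.const_mul _)
    · exact ((EE_differentiable hKc0 hPS).add_const _).const_mul _
  have hrel : ∀ s : ℂ, 3 / 2 < s.re →
      F s = exp (W s + ε * (s - 1) ^ 1 * LSeries (fun n => (PS C m n : ℂ)) s) := by
    intro s hs
    rw [pow_one]
    have hFe := prod_eq h hs (hprod s hs)
    have hP := P_hasSum h ε κ hs
    have hab := abel_rel hKc0 hPS s hs _ hP
    rw [hFe]
    congr 1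
    have e6 : (ε : ℂ) * (s - 1) * LSeries (fun n => (PS C m n : ℂ)) s =
        ε * (EE C m s + C + ε * (κ * LSeries pr s - ∑' n : ℕ, (ell n : ℂ) * (n : ℂ) ^ (1 - s))) := by
      rw [← hab]; ring
    rw [e6, hW]
    simp only
    linear_combination (-(κ * LSeries pr s - ∑' n : ℕ, (ell n : ℂ) * (n : ℂ) ^ (1 - s))) * hε2
  obtain ⟨hsum, hall⟩ := core1 1 (PS C m) hG ε hε F W (fun σ hσ => hF σ hσ.le) hWd
    (fun s hs => PS_summable hPS s hs) hrel hreal1 hreal2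
  obtain ⟨hZF, hval⟩ := transfer 1 (fun n => (PS C m n : ℂ)) ε F W (hF 1 le_rfl) hWd hsum hrel hall
  refine ⟨hZF, ?_⟩
  obtain ⟨K1, hK1⟩ := DD_bound h
  obtain ⟨C1, hC1⟩ := Pool.Agent.H341R2.lam_bounded
  refine ⟨K1 + |κ| * C1 + (2 * Kc * K32 + |C|), ?_⟩
  have hw1 : ∀ᶠ w : ℝ in 𝓝[>] 0, w ≤ 1 := by
    have : Set.Iic (1 : ℝ) ∈ 𝓝 (0 : ℝ) := Iic_mem_nhds one_pos
    exact mem_nhdsWithin_of_mem_nhds this
  filter_upwards [hK1, hC1, self_mem_nhdsWithin, hw1, hval] with w h1 h2 h3 h4 h5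
  have hw : (0 : ℝ) < w := h3
  have hre : (1 : ℝ) < ((1 : ℂ) + w).re := by simp [hw]
  rw [pow_one] at h5
  have h6 : Real.log ‖F (1 + w)‖ = (W (1 + w)).re +
      (ε * ((1 + w : ℂ) - 1) * LSeries (fun n => (PS C m n : ℂ)) (1 + w)).re := by
    rw [h5, Complex.norm_exp, Real.log_exp, add_re]
  have h7 : (ε * ((1 + w : ℂ) - 1) * LSeries (fun n => (PS C m n : ℂ)) (1 + w)).re =
      ε * (w * (LSeries (fun n => (PS C m n : ℂ)) ((1 + w : ℝ) : ℂ)).re) := by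
    have e1 : (ε : ℂ) * ((1 + w : ℂ) - 1) = ((ε * w : ℝ) : ℂ) := by push_cast; ring
    have e2 : ((1 : ℂ) + w) = ((1 + w : ℝ) : ℂ) := by push_cast; rfl
    rw [e1, Complex.re_ofReal_mul, e2]
    ring
  have h8 := re_LSeries_nonneg (PS C m) hG (1 + w)
  have h9 : 0 ≤ w * (LSeries (fun n => (PS C m n : ℂ)) ((1 + w : ℝ) : ℂ)).re := mul_nonneg hw.le h8
  have h10 : ε * Real.log ‖F (1 + w)‖ = ε * (W (1 + w)).re +
      w * (LSeries (fun n => (PS C m n : ℂ)) ((1 + w : ℝ) : ℂ)).re := by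
    rw [h6, h7, mul_add, ← mul_assoc ε ε, hε3, one_mul]
  rw [h10]
  have h11 : (W (1 + w)).re = (∑' p, dd LL ell p (1 + w)).re - κ * Pool.Agent.H341R2.lam w -
      ε * ((EE C m (1 + w)).re + C) := by
    rw [hW]
    simp only
    rw [pr_eq_lam hw]
    simp only [sub_re, re_ofReal_mul, add_re, ofReal_re]
  have h12 : |(∑' p, dd LL ell p (1 + w)).re| ≤ K1 := (Complex.abs_re_le_norm _).trans h1
  have h13 : |(EE C m (1 + w)).re| ≤ 2 * Kc * K32 := by
    refine (Complex.abs_re_le_norm _).trans ((EE_bound hKc0 hPS (1 + w) hre.le).2.trans ?_)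
    have e3 : ‖(1 : ℂ) + w - 1‖ = w := by
      rw [add_sub_cancel_left, Complex.norm_real, Real.norm_eq_abs, abs_of_pos hw]
    have e4 : ‖(1 : ℂ) + w‖ = 1 + w := by
      have : ((1 : ℂ) + w) = ((1 + w : ℝ) : ℂ) := by push_cast; rfl
      rw [this, Complex.norm_real, Real.norm_eq_abs, abs_of_pos (by linarith)]
    rw [e3, e4]
    have hK32 : 0 ≤ K32 := tsum_nonneg fun n => by positivity
    have e5 : w * (1 + w) ≤ 2 := by nlinarith
    calc w * (1 + w) * Kc * K32 ≤ 2 * Kc * K32 := by gcongr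
      _ = _ := rfl
  rw [h11]
  have h14 : |κ * (Pool.Agent.H341R2.lam w + Real.log w)| ≤ |κ| * C1 := by
    rw [abs_mul]; exact mul_le_mul_of_nonneg_left h2 (abs_nonneg _)
  have h15 := abs_le.1 h12
  have h16 := abs_le.1 h13
  have h17 := abs_le.1 h14
  have h18 := abs_le.1 (le_refl |C|)
  rcases hε with h | h
  · rw [h]
    nlinarith [h15.1, h16.1, h16.2, h17.1, h17.2, h18.1, h18.2]
  · rw [h]
    nlinarith [h15.1, h15.2, h16.1, h16.2, h17.1, h17.2, h18.1, h18.2]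

/-- The abstract theorem, for logarithmic averages. -/
theorem main_abs2M (h : Loc LL ell A u) (ε κ C : ℝ) (hε : ε = 1 ∨ ε = -1)
    (hG : ∀ n, 0 ≤ AS C (mm ell ε κ) n) (F : ℂ → ℂ) (hF : ∀ σ : ℝ, 1 ≤ σ → MeromorphicAt F (σ : ℂ))
    (hprod : ∀ s : ℂ, 3 / 2 < s.re → HasProd (fun p : ℕ => exp (LL p s)) (F s))
    (hreal1 : ε = 1 → ∀ σ : ℝ, 1 < σ → 0 ≤ meromorphicOrderAt F σ)
    (hreal2 : ε = -1 → ∀ σ : ℝ, 1 < σ → meromorphicOrderAt F σ ≤ 0) :
    ZF F ∧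
    ∃ K : ℝ, ∀ᶠ w : ℝ in 𝓝[>] 0, ε * (κ * Real.log w) - K ≤ ε * Real.log ‖F (1 + w)‖ := by
  have hε1 : |ε| = 1 := by rcases hε with h | h <;> rw [h] <;> simp
  have hε2 : (ε : ℂ) * ε = 1 := by
    rcases hε with h | h <;> rw [h] <;> push_cast <;> ring
  have hε3 : ε * ε = 1 := by rcases hε with h | h <;> rw [h] <;> norm_num
  have hApos := h.pos
  set m := mm ell ε κ with hm
  set Kc : ℝ := |C| + 2 * (|κ| + A) with hKc
  have hKc0 : 0 ≤ Kc := by positivity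
  have hPS : ∀ n : ℕ, 1 ≤ n → |PS C m n| ≤ Kc * (n : ℝ) ^ (1 / 2 : ℝ) :=
    fun n hn => PS_le h ε κ C hε1 n hn
  have hAS : ∀ n : ℕ, 1 ≤ n → |AS C m n| ≤ 2 * Kc * (n : ℝ) ^ (1 / 2 : ℝ) :=
    fun n _ => AS_le hKc0 hPS n
  set E2 : ℂ → ℂ := EE 0 (fun k => PS C m k / k) with hE2
  set W : ℂ → ℂ := fun s => (∑' p, dd LL ell p s) - κ * LSeries pr s - ε * (EE C m s + C)
    - ε * ((s - 1) * E2 s) with hW
  have hWd : DifferentiableOn ℂ W {s | 1 < s.re} := by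
    apply DifferentiableOn.sub
    · apply DifferentiableOn.sub
      · exact (DD_differentiable h).sub (pr_differentiable.const_mul _)
      · exact ((EE_differentiable hKc0 hPS).add_const _).const_mul _
    · apply DifferentiableOn.const_mul
      apply DifferentiableOn.mul (by fun_prop)
      exact EE_differentiable (by positivity : (0 : ℝ) ≤ 2 * Kc) hAS
  have hrel : ∀ s : ℂ, 3 / 2 < s.re →
      F s = exp (W s + ε * (s - 1) ^ 2 * LSeries (fun n => (AS C m n : ℂ)) s) := by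
    intro s hs
    have hs1 : 1 < s.re := by linarith
    have hFe := prod_eq h hs (hprod s hs)
    have hP := P_hasSum h ε κ hs
    have hab := abel_rel hKc0 hPS s hs _ hP
    have hP2 : HasSum (fun n : ℕ => ((PS C m (n + 1) / ((n + 1 : ℕ) : ℝ) : ℝ) : ℂ) * ((n + 1 : ℕ) : ℂ) ^ (1 - s))
        (LSeries (fun n => (PS C m n : ℂ)) s) := by
      have h3 : HasSum (LSeries.term (fun n => (PS C m n : ℂ)) s) (LSeries (fun n => (PS C m n : ℂ)) s) :=
        (PS_summable hPS s hs).hasSum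
      have h4 := (hasSum_nat_add_iff' (f := LSeries.term (fun n => (PS C m n : ℂ)) s) 1).2 h3
      simp only [sum_range_one, LSeries.term_zero, sub_zero] at h4
      have e : (fun n : ℕ => ((PS C m (n + 1) / ((n + 1 : ℕ) : ℝ) : ℝ) : ℂ) * ((n + 1 : ℕ) : ℂ) ^ (1 - s)) =
          fun n => LSeries.term (fun n => (PS C m n : ℂ)) s (n + 1) := by
        funext n
        have hn : ((n + 1 : ℕ) : ℂ) ≠ 0 := by exact_mod_cast (by omega : n + 1 ≠ 0)
        have hns : ((n + 1 : ℕ) : ℂ) ^ s ≠ 0 := by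
          rw [Complex.cpow_ne_zero_iff]; exact Or.inl hn
        rw [LSeries.term_of_ne_zero (by omega : n + 1 ≠ 0), sub_eq_add_neg 1 s,
          Complex.cpow_add _ _ hn, Complex.cpow_one, Complex.cpow_neg]
        push_cast at hn hns ⊢
        field_simp
      rw [e]
      exact h4
    have hab2 := abel_rel (C := 0) (m := fun k => PS C m k / k) (by positivity : (0 : ℝ) ≤ 2 * Kc) hAS s hs _ hP2
    have hab2' : (s - 1) * LSeries (fun n => (AS C m n : ℂ)) s = E2 s + LSeries (fun n => (PS C m n : ℂ)) s := by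
      have := hab2
      simp only [Complex.ofReal_zero, add_zero] at this
      exact this
    rw [hFe]
    congr 1
    have e6 : (ε : ℂ) * (s - 1) ^ 2 * LSeries (fun n => (AS C m n : ℂ)) s =
        ε * ((s - 1) * E2 s) + ε * (EE C m s + C + ε * (κ * LSeries pr s -
          ∑' n : ℕ, (ell n : ℂ) * (n : ℂ) ^ (1 - s))) := by
      have e7 : (ε : ℂ) * (s - 1) ^ 2 * LSeries (fun n => (AS C m n : ℂ)) s =
          ε * ((s - 1) * ((s - 1) * LSeries (fun n => (AS C m n : ℂ)) s)) := by ring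
      rw [e7, hab2', ← hab]; ring
    rw [e6, hW]
    simp only
    linear_combination (-(κ * LSeries pr s - ∑' n : ℕ, (ell n : ℂ) * (n : ℂ) ^ (1 - s))) * hε2
  obtain ⟨hsum, hall⟩ := core1 2 (AS C m) hG ε hε F W (fun σ hσ => hF σ hσ.le) hWd
    (fun s hs => PS_summable hAS s hs) hrel hreal1 hreal2
  obtain ⟨hZF, hval⟩ := transfer 2 (fun n => (AS C m n : ℂ)) ε F W (hF 1 le_rfl) hWd hsum hrel hall
  refine ⟨hZF, ?_⟩
  obtain ⟨K1, hK1⟩ := DD_bound h
  obtain ⟨C1, hC1⟩ := Pool.Agent.H341R2.lam_bounded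
  refine ⟨K1 + |κ| * C1 + (2 * Kc * K32 + |C|) + 4 * Kc * K32, ?_⟩
  have hw1 : ∀ᶠ w : ℝ in 𝓝[>] 0, w ≤ 1 := by
    have : Set.Iic (1 : ℝ) ∈ 𝓝 (0 : ℝ) := Iic_mem_nhds one_pos
    exact mem_nhdsWithin_of_mem_nhds this
  filter_upwards [hK1, hC1, self_mem_nhdsWithin, hw1, hval] with w h1 h2 h3 h4 h5
  have hw : (0 : ℝ) < w := h3
  have hre : (1 : ℝ) < ((1 : ℂ) + w).re := by simp [hw]
  have h6 : Real.log ‖F (1 + w)‖ = (W (1 + w)).re +
      (ε * ((1 + w : ℂ) - 1) ^ 2 * LSeries (fun n => (AS C m n : ℂ)) (1 + w)).re := by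
    rw [h5, Complex.norm_exp, Real.log_exp, add_re]
  have h7 : (ε * ((1 + w : ℂ) - 1) ^ 2 * LSeries (fun n => (AS C m n : ℂ)) (1 + w)).re =
      ε * (w ^ 2 * (LSeries (fun n => (AS C m n : ℂ)) ((1 + w : ℝ) : ℂ)).re) := by
    have e1 : (ε : ℂ) * ((1 + w : ℂ) - 1) ^ 2 = ((ε * w ^ 2 : ℝ) : ℂ) := by push_cast; ring
    have e2 : ((1 : ℂ) + w) = ((1 + w : ℝ) : ℂ) := by push_cast; rfl
    rw [e1, Complex.re_ofReal_mul, e2]
    ring
  have h8 := re_LSeries_nonneg (AS C m) hG (1 + w)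
  have h9 : 0 ≤ w ^ 2 * (LSeries (fun n => (AS C m n : ℂ)) ((1 + w : ℝ) : ℂ)).re := mul_nonneg (by positivity) h8
  have h10 : ε * Real.log ‖F (1 + w)‖ = ε * (W (1 + w)).re +
      w ^ 2 * (LSeries (fun n => (AS C m n : ℂ)) ((1 + w : ℝ) : ℂ)).re := by
    rw [h6, h7, mul_add, ← mul_assoc ε ε, hε3, one_mul]
  rw [h10]
  have h11 : (W (1 + w)).re = (∑' p, dd LL ell p (1 + w)).re - κ * Pool.Agent.H341R2.lam w -
      ε * ((EE C m (1 + w)).re + C) - ε * (w * (E2 (1 + w)).re) := by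
    rw [hW]
    simp only
    rw [pr_eq_lam hw]
    have e8 : ((1 : ℂ) + w - 1) * E2 (1 + w) = (w : ℂ) * E2 (1 + w) := by ring
    rw [e8]
    simp only [sub_re, re_ofReal_mul, add_re, ofReal_re]
  have h12 : |(∑' p, dd LL ell p (1 + w)).re| ≤ K1 := (Complex.abs_re_le_norm _).trans h1
  have h13 : |(EE C m (1 + w)).re| ≤ 2 * Kc * K32 := by
    refine (Complex.abs_re_le_norm _).trans ((EE_bound hKc0 hPS (1 + w) hre.le).2.trans ?_)
    have e3 : ‖(1 : ℂ) + w - 1‖ = w := by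
      rw [add_sub_cancel_left, Complex.norm_real, Real.norm_eq_abs, abs_of_pos hw]
    have e4 : ‖(1 : ℂ) + w‖ = 1 + w := by
      have : ((1 : ℂ) + w) = ((1 + w : ℝ) : ℂ) := by push_cast; rfl
      rw [this, Complex.norm_real, Real.norm_eq_abs, abs_of_pos (by linarith)]
    rw [e3, e4]
    have hK32 : 0 ≤ K32 := tsum_nonneg fun n => by positivity
    have e5 : w * (1 + w) ≤ 2 := by nlinarith
    calc w * (1 + w) * Kc * K32 ≤ 2 * Kc * K32 := by gcongr
      _ = _ := rfl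
  have hK32 : 0 ≤ K32 := tsum_nonneg fun n => by positivity
  have h13b : |w * (E2 (1 + w)).re| ≤ 4 * Kc * K32 := by
    rw [abs_mul, abs_of_pos hw]
    have h20 : |(E2 (1 + w)).re| ≤ 4 * Kc * K32 := by
      refine (Complex.abs_re_le_norm _).trans
        ((EE_bound (by positivity : (0 : ℝ) ≤ 2 * Kc) hAS (1 + w) hre.le).2.trans ?_)
      have e3 : ‖(1 : ℂ) + w - 1‖ = w := by
        rw [add_sub_cancel_left, Complex.norm_real, Real.norm_eq_abs, abs_of_pos hw]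
      have e4 : ‖(1 : ℂ) + w‖ = 1 + w := by
        have : ((1 : ℂ) + w) = ((1 + w : ℝ) : ℂ) := by push_cast; rfl
        rw [this, Complex.norm_real, Real.norm_eq_abs, abs_of_pos (by linarith)]
      rw [e3, e4]
      have e5 : w * (1 + w) ≤ 2 := by nlinarith
      calc w * (1 + w) * (2 * Kc) * K32 ≤ 2 * (2 * Kc) * K32 := by gcongr
        _ = 4 * Kc * K32 := by ring
    have h21 : 0 ≤ 4 * Kc * K32 := by positivity
    nlinarith [abs_nonneg (E2 (1 + w)).re]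
  rw [h11]
  have h14 : |κ * (Pool.Agent.H341R2.lam w + Real.log w)| ≤ |κ| * C1 := by
    rw [abs_mul]; exact mul_le_mul_of_nonneg_left h2 (abs_nonneg _)
  have h15 := abs_le.1 h12
  have h16 := abs_le.1 h13
  have h17 := abs_le.1 h14
  have h18 := abs_le.1 (le_refl |C|)
  have h19 := abs_le.1 h13b
  rcases hε with h | h
  · rw [h]
    nlinarith [h15.1, h16.1, h16.2, h17.1, h17.2, h18.1, h18.2, h19.1, h19.2]
  · rw [h]
    nlinarith [h15.1, h15.2, h16.1, h16.2, h17.1, h17.2, h18.1, h18.2, h19.1, h19.2]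



end Pool.Agent.H472R3.NF
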