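import Pool.Agent.H472R3.NF.FinT

/-! Convergence of the Euler product of an elliptic curve over a number field (after
`Pool.Agent.H82R3.EK.Euler`, helper82). -/

set_option autoImplicit false

open Filter Topology NumberField IsDedekindDomain

namespace Pool.Agent.H472R3.NF

open Pool.Agent.H438R3.BSD.NF (Good Np hasse_v)
open Pool.Agent.H921R2.TatePole (nm two_le_nm nm_summable)

variable {K : Type} [Field K] [NumberField K]

open Classical in
lemma factor_sub_bound (a b : 𝓞 K) (v : HeightOneSpectrum (𝓞 K)) (s : ℂ) (hs : 3 / 2 < s.re)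
    (hsmall : (nm v : ℝ) ^ (-(s.re - 1 / 2)) ≤ 1 / 6) :
    ‖(if Good a b v then
      (1 - ((Ideal.absNorm v.asIdeal : ℂ) - (Np a b v : ℂ)) * (Ideal.absNorm v.asIdeal : ℂ) ^ (-s) +
        (Ideal.absNorm v.asIdeal : ℂ) ^ (1 - 2 * s))⁻¹ else 1) - 1‖ ≤ 6 * (nm v : ℝ) ^ (-(s.re - 1 / 2)) := by
  have hn0 : (0 : ℝ) < nm v := by
    have := two_le_nm v
    exact_mod_cast (by omega : 0 < nm v)
  have hn1 : (1 : ℝ) ≤ nm v := by
    have := two_le_nm v
    exact_mod_cast (by omega : 1 ≤ nm v)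
  by_cases hv : Good a b v
  · rw [if_pos hv]
    have hb := hasse_v a b v hv
    set t : ℂ := (Ideal.absNorm v.asIdeal : ℂ) - (Np a b v : ℂ) with ht
    have htn : ‖t‖ ≤ 2 * Real.sqrt (nm v) := by
      have e : t = (((nm v : ℝ) - Np a b v : ℝ) : ℂ) := by
        rw [ht]
        push_cast
        rfl
      rw [e, Complex.norm_real, Real.norm_eq_abs]
      exact hb
    set w : ℝ := (nm v : ℝ) ^ (-(s.re - 1 / 2)) with hw
    have e1 : ‖((Ideal.absNorm v.asIdeal : ℕ) : ℂ) ^ (-s)‖ = (nm v : ℝ) ^ (-s.re) := by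
      have := Complex.norm_natCast_cpow_of_pos (n := nm v) (by exact_mod_cast hn0) (-s)
      rw [Complex.neg_re] at this
      exact this
    have e2 : ‖((Ideal.absNorm v.asIdeal : ℕ) : ℂ) ^ (1 - 2 * s)‖ = (nm v : ℝ) ^ (1 - 2 * s.re) := by
      have := Complex.norm_natCast_cpow_of_pos (n := nm v) (by exact_mod_cast hn0) (1 - 2 * s)
      have h2 : (1 - 2 * s).re = 1 - 2 * s.re := by simp
      rw [h2] at this
      exact this
    set u : ℂ := -(t * ((Ideal.absNorm v.asIdeal : ℕ) : ℂ) ^ (-s)) +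
      ((Ideal.absNorm v.asIdeal : ℕ) : ℂ) ^ (1 - 2 * s) with hu
    have hu1 : ‖u‖ ≤ 3 * w := by
      have h1 : ‖t * ((Ideal.absNorm v.asIdeal : ℕ) : ℂ) ^ (-s)‖ ≤ 2 * w := by
        rw [norm_mul, e1]
        calc ‖t‖ * (nm v : ℝ) ^ (-s.re) ≤ (2 * Real.sqrt (nm v)) * (nm v : ℝ) ^ (-s.re) :=
              mul_le_mul_of_nonneg_right htn (by positivity)
          _ = 2 * w := by
              rw [hw, Real.sqrt_eq_rpow, mul_assoc, ← Real.rpow_add hn0]
              congr 2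
              ring
      have h2 : ‖((Ideal.absNorm v.asIdeal : ℕ) : ℂ) ^ (1 - 2 * s)‖ ≤ w := by
        rw [e2, hw]
        apply Real.rpow_le_rpow_of_exponent_le hn1
        linarith
      calc ‖u‖ ≤ ‖-(t * ((Ideal.absNorm v.asIdeal : ℕ) : ℂ) ^ (-s))‖ + _ := norm_add_le _ _
        _ ≤ 2 * w + w := add_le_add (by rwa [norm_neg]) h2
        _ = 3 * w := by ring
    have e3 : (1 - t * ((Ideal.absNorm v.asIdeal : ℕ) : ℂ) ^ (-s) +
      ((Ideal.absNorm v.asIdeal : ℕ) : ℂ) ^ (1 - 2 * s)) = 1 + u := by rw [hu]; ring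
    rw [e3]
    have hu2 : ‖u‖ ≤ 1 / 2 := by linarith
    have h3 : 1 / 2 ≤ ‖1 + u‖ := by
      have := norm_sub_norm_le (1 : ℂ) (-u)
      rw [sub_neg_eq_add, norm_neg, norm_one] at this
      linarith
    have hne : 1 + u ≠ 0 := by
      intro h
      rw [h, norm_zero] at h3
      linarith
    have e4 : (1 + u)⁻¹ - 1 = -u / (1 + u) := by field_simp; ring
    rw [e4, norm_div, norm_neg, div_le_iff₀ (by linarith)]
    nlinarith [norm_nonneg u]
  · rw [if_neg hv, sub_self, norm_zero]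
    positivity

/-- the Euler product converges for `Re s > 3/2` -/
lemma exists_prod (a b : 𝓞 K) (s : ℂ) (hs : 3 / 2 < s.re) : ∃ z, IsProd a b s z := by
  classical
  have hsum := nm_summable (K := K) (x := s.re - 1 / 2) (by linarith)
  have h1 : Summable (fun v : HeightOneSpectrum (𝓞 K) => ‖(if Good a b v then
      (1 - ((Ideal.absNorm v.asIdeal : ℂ) - (Np a b v : ℂ)) * (Ideal.absNorm v.asIdeal : ℂ) ^ (-s) +
        (Ideal.absNorm v.asIdeal : ℂ) ^ (1 - 2 * s))⁻¹ else 1) - 1‖) := by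
    refine Summable.of_norm_bounded_eventually (hsum.mul_left 6) ?_
    have h2 := hsum.tendsto_cofinite_zero.eventually (Iio_mem_nhds (by norm_num : (0 : ℝ) < 1 / 6))
    filter_upwards [h2] with v hv
    rw [norm_norm]
    have := factor_sub_bound a b v s hs (le_of_lt hv)
    convert this
  have h2 := multipliable_one_add_of_summable h1
  have h3 : Multipliable (fun v : HeightOneSpectrum (𝓞 K) => (if Good a b v then
      (1 - ((Ideal.absNorm v.asIdeal : ℂ) - (Np a b v : ℂ)) * (Ideal.absNorm v.asIdeal : ℂ) ^ (-s) +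
        (Ideal.absNorm v.asIdeal : ℂ) ^ (1 - 2 * s))⁻¹ else 1)) := by
    refine h2.congr (fun v => ?_)
    ring
  obtain ⟨z, hz⟩ := h3
  refine ⟨z, ?_⟩
  unfold IsProd
  convert hz

/-- **Two-sided bounds**, without any hypothesis on the `L`-function. -/
theorem two_sided_final (a b : 𝓞 K) (δ : ℝ) (hδ : 0 ≤ δ) (hδ2 : δ ≤ 1 / 2)
    (hZ : ¬ ZeroFreeAt a b δ) (C : ℝ) :
    ∃ᶠ x : ℕ in atTop, C * (x : ℝ) ^ δ < |Real.log (Pool.Agent.H438R3.BSD.NF.EP a b x)| := by
  classical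
  choose! F hF using fun (s : ℂ) (hs : 3 / 2 < s.re) => exists_prod a b s hs
  exact two_sided_main a b F hF δ hδ hδ2 hZ C

/-- the logarithmic averages, without any hypothesis on the `L`-function -/
theorem averages_final (a b : 𝓞 K) (κ C : ℝ)
    (hC : ∀ᶠ x : ℕ in atTop, |Pool.Agent.H438R3.BSD.NF.LA a b κ x| ≤ C) :
    ∃ G : ℂ → ℂ, DifferentiableOn ℂ G {s | 1 < s.re} ∧ (∀ s : ℂ, 1 < s.re → G s ≠ 0) ∧
      (∀ s : ℂ, 3 / 2 < s.re → IsProd a b s (G s)) ∧
      (∃ B : ℝ, ∀ᶠ w : ℝ in 𝓝[>] 0, |Real.log ‖G (1 + w)‖ - κ * Real.log w| ≤ B) ∧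
      ∀ H : ℂ → ℂ, MeromorphicAt H 1 → (∀ᶠ w : ℝ in 𝓝[>] 0, H (1 + w) = G (1 + w)) →
        ∃ m : ℤ, meromorphicOrderAt H 1 = m ∧ κ = m := by
  classical
  choose! F hF using fun (s : ℂ) (hs : 3 / 2 < s.re) => exists_prod a b s hs
  obtain ⟨G, hG1, hG2, hG3, B, hB⟩ := main2 a b hF κ C hC
  refine ⟨G, hG1, hG2, fun s hs => by rw [hG3 s hs]; exact hF s hs, ⟨B, hB⟩, ?_⟩
  intro H hH hHG
  have htop : meromorphicOrderAt H 1 ≠ ⊤ := by
    intro h
    rw [meromorphicOrderAt_eq_top_iff] at h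
    have hpath : Tendsto (fun w : ℝ => ((1 : ℂ) + w)) (𝓝[>] 0) (𝓝[≠] (1 : ℂ)) := by
      apply tendsto_nhdsWithin_of_tendsto_nhds_of_eventually_within
      · have : ContinuousAt (fun w : ℝ => (1 : ℂ) + w) 0 := by fun_prop
        have h3 := this.tendsto
        simp only [Complex.ofReal_zero, add_zero] at h3
        exact h3.mono_left nhdsWithin_le_nhds
      · filter_upwards [self_mem_nhdsWithin] with w hw h0
        have hw' : (0 : ℝ) < w := hw
        have h1 : (1 : ℂ) + w = 1 := h0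
        have h2 : (w : ℂ) = 0 := by linear_combination h1
        have h3 : w = 0 := by exact_mod_cast h2
        linarith
    obtain ⟨w, h1, h2, h3⟩ := ((hpath.eventually h).and (hHG.and self_mem_nhdsWithin)).exists
    have hw : (0 : ℝ) < w := h3
    rw [h2] at h1
    exact hG2 (1 + w) (by simp [hw]) h1
  obtain ⟨m, hm⟩ := WithTop.ne_top_iff_exists.1 htop
  obtain ⟨C3, hC3⟩ := Pool.Agent.H341R2.log_norm_meromorphic hH hm.symm
  refine ⟨m, hm.symm, exponent_unique hB (μ := (m : ℝ)) (K2 := C3) ?_⟩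
  filter_upwards [hHG, hC3] with w h2 h3
  rw [← h2]
  exact h3.2

end Pool.Agent.H472R3.NF
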