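import Pool.Agent.H438R3.BSD.NF3
import Pool.Agent.H472R3.NF.Gen12

/-! Elliptic curves over number fields: one-sided bounds without the assumption of an entire
continuation. -/

set_option autoImplicit false

open Filter Topology Finset NumberField IsDedekindDomain

namespace Pool.Agent.H472R3.NF

open Pool.Agent.H438R3.BSD.NF (Good Np EP LA log_EP EP_pos good cc locNF prodNF)
open Pool.Agent.H438R3.BSD (GenN.LA)

variable {K : Type} [Field K] [NumberField K]

open Classical in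
/-- the Euler product of `y² = x³ + a x + b` over the places of `K` not dividing twice the
discriminant has the value `z` at `s` -/
def IsProd (a b : 𝓞 K) (s z : ℂ) : Prop :=
  HasProd (fun v : HeightOneSpectrum (𝓞 K) => if Good a b v then
      (1 - ((Ideal.absNorm v.asIdeal : ℂ) - (Np a b v : ℂ)) * (Ideal.absNorm v.asIdeal : ℂ) ^ (-s) +
        (Ideal.absNorm v.asIdeal : ℂ) ^ (1 - 2 * s))⁻¹ else 1) z

/-- the Euler product has a holomorphic continuation without zeros to `Re s > 1` -/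
def ZeroFree (a b : 𝓞 K) : Prop :=
  ∃ G : ℂ → ℂ, DifferentiableOn ℂ G {s | 1 < s.re} ∧ (∀ s : ℂ, 1 < s.re → G s ≠ 0) ∧
    ∀ s : ℂ, 3 / 2 < s.re → IsProd a b s (G s)

theorem main (a b : 𝓞 K) {F : ℂ → ℂ} (hF : ∀ σ : ℝ, 1 ≤ σ → MeromorphicAt F (σ : ℂ))
    (hprod : ∀ s : ℂ, 3 / 2 < s.re → IsProd a b s (F s)) :
    ∃ m : ℤ, meromorphicOrderAt F 1 = m ∧
    ((∀ σ : ℝ, 1 < σ → 0 ≤ meromorphicOrderAt F σ) →
      ∀ κ : ℝ, (κ < m ∨ ¬ ZeroFree a b) → ∀ C : ℝ,
      (∃ᶠ x : ℕ in atTop, C < LA a b κ x) ∧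
      ∃ᶠ x : ℕ in atTop, C * Real.log x ^ κ < EP a b x) ∧
    ((∀ σ : ℝ, 1 < σ → meromorphicOrderAt F σ ≤ 0) →
      ∀ κ : ℝ, ((m : ℝ) < κ ∨ ¬ ZeroFree a b) → ∀ C : ℝ, 0 < C →
      (∃ᶠ x : ℕ in atTop, LA a b κ x < -C) ∧
      ∃ᶠ x : ℕ in atTop, EP a b x < C * Real.log x ^ κ) := by
  classical
  set g : ℕ → ℝ := Pool.Agent.H438R3.BSD.GenN.lE (Pool.Agent.H438R3.BSD.GenN.ellc (good a b) (cc a b)) with hg
  obtain ⟨m, hm, h1, h2⟩ := mainM (locNF a b) hF
    (fun s hs => prodNF a b (by linarith : 1 ≤ s.re) (hprod s hs)) g 0 (fun n => by rw [hg]; simp)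
  have hZF : ∀ κ c : ℝ, (κ < c ∨ ¬ ZeroFree a b) → (κ < c ∨ ¬ ZF F) := by
    rintro κ c (h | h)
    · exact Or.inl h
    · refine Or.inr fun hz => h ?_
      obtain ⟨G, hG1, hG2, hG3⟩ := hz
      exact ⟨G, hG1, hG2, fun s hs => by rw [hG3 s hs]; exact hprod s hs⟩
  have hLA : ∀ κ x, LA a b κ x = Pool.Agent.H438R3.BSD.GenN.LA g κ x := by
    intro κ x
    unfold LA Pool.Agent.H438R3.BSD.GenN.LA
    simp_rw [log_EP]
    rfl
  have hlog : ∀ᶠ x : ℕ in atTop, (1 : ℝ) < Real.log x :=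
    (Real.tendsto_log_atTop.comp tendsto_natCast_atTop_atTop).eventually_gt_atTop _
  refine ⟨m, hm, fun hpole κ hκ C => ⟨?_, ?_⟩, fun hreal κ hκ C hC => ⟨?_, ?_⟩⟩
  · refine (h1 hpole κ (hZF _ _ hκ) C).1.mono fun x hx => ?_
    rwa [hLA]
  · refine ((h1 hpole κ (hZF _ _ hκ) (Real.log |C|)).2.and_eventually hlog).mono fun x hx => ?_
    obtain ⟨hx1, hx2⟩ := hx
    rw [hg, ← log_EP] at hx1
    have h3 : 0 < Real.log (x : ℝ) ^ κ := Real.rpow_pos_of_pos (by linarith) _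
    rcases le_or_gt C 0 with hC | hC
    · have := EP_pos a b x
      have h4 := mul_nonpos_of_nonpos_of_nonneg hC h3.le
      linarith
    · rw [abs_of_pos hC] at hx1
      have h5 : Real.log (C * Real.log x ^ κ) < Real.log (EP a b x) := by
        rw [Real.log_mul hC.ne' h3.ne', Real.log_rpow (by linarith)]
        linarith
      exact (Real.log_lt_log_iff (by positivity) (EP_pos a b x)).1 h5
  · refine (h2 hreal κ (hZF _ _ hκ) (-C)).1.mono fun x hx => ?_
    rwa [hLA]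
  · refine ((h2 hreal κ (hZF _ _ hκ) (Real.log C)).2.and_eventually hlog).mono fun x hx => ?_
    obtain ⟨hx1, hx2⟩ := hx
    rw [hg, ← log_EP] at hx1
    have h3 : 0 < Real.log (x : ℝ) ^ κ := Real.rpow_pos_of_pos (by linarith) _
    have h5 : Real.log (EP a b x) < Real.log (C * Real.log x ^ κ) := by
      rw [Real.log_mul hC.ne' h3.ne', Real.log_rpow (by linarith)]
      linarith
    exact (Real.log_lt_log_iff (EP_pos a b x) (by positivity)).1 h5

end Pool.Agent.H472R3.NF
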